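import Mathlib

/-!
# Occurrences of factors
-/

namespace DeckL

/-- The number of occurrences of the word `w` as a contiguous subword of the word `v`. -/
def occ (w v : List Bool) : ℕ :=
  ((Finset.range (v.length + 1)).filter fun j => w <+: v.drop j).card

/-- The number of positions `i < |v| / 4` of the word `v` at which a contiguous subword of length
`l` starts that occurs at most `M` times in `v`. -/
def seldom (l M : ℕ) (v : List Bool) : ℕ :=
  ((Finset.range (v.length / 4)).filter fun i =>
    i + l ≤ v.length ∧ occ ((v.drop i).take l) v ≤ M).card

end DeckL
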