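import Pool.Agent.DeckG.Dens
import Pool.Agent.DeckL.Defs

/-!
# A rare time in the first quarter
-/

namespace DeckL

open DeckA DeckG

/-- The times of the first quarter of `[0, b)` whose `l`-factor occurs at most `M` times in
`[0, b)`. -/
noncomputable def sel (l M : ℕ) (x : ℕ → Bool) (b : ℕ) : Finset ℕ :=
  (Finset.range (b / 4)).filter fun i =>
    i + l ≤ b ∧ mlt l x (Finset.Ico 0 (b + 1 - l)) i ≤ M

/-- If the first quarter of the time interval `[0, b)` has many `l`-factors that are seldom in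
`[0, b)`, then some edge traversed in it is rare in `[0, b)`. -/
theorem dens1 {t l σ b M : ℕ} {θ : ℝ} (x : ℕ → Bool) (hl : 1 ≤ l) (hσ : 1 ≤ σ)
    (ht : t = σ * l) (htb : t ≤ b)
    (hbig : 2 * Real.log ((t + 1) * ((b : ℝ) + 1)) < θ * Real.log 2 * σ)
    (hD : θ * (b : ℝ) ≤ ((sel l M x b).card : ℝ)) :
    ∃ i, 4 * i < b ∧ trc (Trav t (pre x i) (x i) x) 0 b ≤ 2 * M + 1 := by
  classical
  have hlt : l ≤ t := by rw [ht]; exact Nat.le_mul_of_pos_left l hσ
  set I := Finset.Ico 0 (b + 1 - l) with hI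
  set B : ℝ := Real.log ((t + 1) * ((b : ℝ) + 1)) with hB
  have hσ0 : (1 : ℝ) ≤ σ := by exact_mod_cast hσ
  have hlog2 : 0 < Real.log 2 := Real.log_pos (by norm_num)
  have hb1 : (1 : ℝ) ≤ b := by exact_mod_cast (hl.trans hlt).trans htb
  have htb' : (t : ℝ) ≤ b := by exact_mod_cast htb
  have hB0 : 0 ≤ B := by
    apply Real.log_nonneg
    have h1 : (0 : ℝ) ≤ t := Nat.cast_nonneg t
    have h2 : (1 : ℝ) * 1 ≤ ((t : ℝ) + 1) * ((b : ℝ) + 1) :=
      mul_le_mul (by linarith) (by linarith) (by norm_num) (by linarith)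
    linarith
  set H := ∑ i ∈ I, (Real.log (mu0 t x I i) - Real.log (mul t l x I i)) with hH
  have hHb : H < θ * b * Real.log 2 := by
    have h1 := ent_bound (t := t) (l := l) (s := σ) x (a := 0) (b := b) (by omega) ht.symm.le hl
    have h2 : (σ : ℝ) * l = t := by rw [ht]; push_cast; ring
    rw [h2] at h1
    simp only [Nat.cast_zero, sub_zero] at h1
    have h3 : σ * H ≤ (2 * b) * B := by
      refine h1.trans (mul_le_mul_of_nonneg_right ?_ hB0)
      linarith
    have h4 : (2 * b) * B < σ * (θ * b * Real.log 2) := by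
      have h5 : (b : ℝ) * (2 * B) < b * (θ * Real.log 2 * σ) :=
        mul_lt_mul_of_pos_left hbig (by linarith)
      linarith
    exact lt_of_mul_lt_mul_left (lt_of_le_of_lt h3 h4) (by linarith)
  set P := I.filter fun i => 2 * mul t l x I i < mu0 t x I i with hP
  have hnn : ∀ i ∈ I, 0 ≤ Real.log (mu0 t x I i) - Real.log (mul t l x I i) := by
    intro i hi
    have h1 : (1 : ℝ) ≤ mul t l x I i := by exact_mod_cast mul_pos' hi
    have h2 : (mul t l x I i : ℝ) ≤ mu0 t x I i := by exact_mod_cast mul_le_mu0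
    have := Real.log_le_log (by linarith) h2
    linarith
  have hPc : (P.card : ℝ) < θ * b := by
    have h1 : ∑ i ∈ P, Real.log 2 ≤ H := by
      refine le_trans (Finset.sum_le_sum fun i hi => ?_)
        (Finset.sum_le_sum_of_subset_of_nonneg (Finset.filter_subset _ _) fun i hi _ => hnn i hi)
      obtain ⟨hi1, hi2⟩ := Finset.mem_filter.1 hi
      have h2 : (1 : ℝ) ≤ mul t l x I i := by exact_mod_cast mul_pos' hi1
      have h3 : (2 : ℝ) * mul t l x I i ≤ mu0 t x I i := by exact_mod_cast hi2.le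
      have h4 := Real.log_le_log (by linarith) h3
      rw [Real.log_mul (by norm_num) (by linarith)] at h4
      linarith
    rw [Finset.sum_const, nsmul_eq_mul] at h1
    exact lt_of_mul_lt_mul_right (lt_of_le_of_lt h1 hHb) hlog2.le
  -- a good position
  obtain ⟨i, hiQ, hiP⟩ : ∃ i ∈ sel l M x b, i ∉ P := by
    by_contra hcon
    push Not at hcon
    have h1 := Finset.card_le_card (show sel l M x b ⊆ P from hcon)
    have h2 : ((sel l M x b).card : ℝ) ≤ P.card := by exact_mod_cast h1
    linarith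
  obtain ⟨hi0, hi1, hi2⟩ := Finset.mem_filter.1 hiQ
  rw [Finset.mem_range] at hi0
  have hiI : i ∈ I := Finset.mem_Ico.2 ⟨Nat.zero_le i, by omega⟩
  have hi3 : mu0 t x I i ≤ 2 * mul t l x I i := by
    by_contra h
    exact hiP (Finset.mem_filter.2 ⟨hiI, by omega⟩)
  refine ⟨i, by omega, ?_⟩
  have h1 : trc (Trav t (pre x i) (x i) x) 0 b ≤ mu0 t x I i + 1 := by
    have hsub1 : (Finset.Ico 0 b).filter (Trav t (pre x i) (x i) x) ⊆
        (I.filter fun j => Cl t (pre x i) (pre x j)) ∪
          (Finset.Ico (b + 1 - l) b).filter (fun j => Cl t (pre x i) (pre x j)) := by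
      intro j hj
      obtain ⟨hj1, hj2⟩ := Finset.mem_filter.1 hj
      have hj3 := Finset.mem_Ico.1 hj1
      rw [Finset.mem_union, Finset.mem_filter, Finset.mem_filter, hI, Finset.mem_Ico,
        Finset.mem_Ico]
      by_cases h : j < b + 1 - l
      · exact Or.inl ⟨⟨hj3.1, h⟩, hj2.1⟩
      · exact Or.inr ⟨⟨by omega, hj3.2⟩, hj2.1⟩
    have hone : ((Finset.Ico (b + 1 - l) b).filter
        (fun j => Cl t (pre x i) (pre x j))).card ≤ 1 := by
      rw [Finset.card_le_one]
      intro j hj j' hj'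
      obtain ⟨h5, h6⟩ := Finset.mem_filter.1 hj
      obtain ⟨h7, h8⟩ := Finset.mem_filter.1 hj'
      have h9 := Finset.mem_Ico.1 h5
      have h10 := Finset.mem_Ico.1 h7
      rcases Nat.lt_trichotomy j j' with h | h | h
      · exact absurd (h6.symm.trans h8) (not_Cl_near x h (by omega))
      · exact h
      · exact absurd (h8.symm.trans h6) (not_Cl_near x h (by omega))
    have hc := (Finset.card_le_card hsub1).trans (Finset.card_union_le _ _)
    have e1 : trc (Trav t (pre x i) (x i) x) 0 b =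
        ((Finset.Ico 0 b).filter (Trav t (pre x i) (x i) x)).card := by
      unfold trc; congr!
    have e2 : mu0 t x I i = (I.filter fun j => Cl t (pre x i) (pre x j)).card := by
      unfold mu0; congr!
    rw [e1, e2]
    exact hc.trans (Nat.add_le_add_left hone _)
  have h2 : mul t l x I i ≤ M := mul_le_mlt.trans hi2
  omega

/-- Many different `l`-factors in the first quarter. -/
theorem sel_of_nfac {l b : ℕ} {δ : ℝ} (x : ℕ → Bool) (hl : 1 ≤ l) (hlb : l ≤ b) (hb : 12 ≤ b)
    (hδ : 0 < δ)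
    (hD : δ * ((b / 4 : ℕ) : ℝ) ≤
      (((Finset.Ico 0 (b / 4 + 1 - l)).image fun i => win x i l).card : ℝ)) :
    δ / 8 * (b : ℝ) ≤ ((sel l ⌊16 / δ⌋₊ x b).card : ℝ) := by
  classical
  set I := Finset.Ico 0 (b + 1 - l) with hI
  set J := Finset.Ico 0 (b / 4 + 1 - l) with hJ
  have hb12 : (12 : ℝ) ≤ b := by exact_mod_cast hb
  have hIm : (I.card : ℝ) ≤ b := by
    have h1 : I.card ≤ b := by rw [hI, Nat.card_Ico]; omega
    exact_mod_cast h1
  set J' := J.filter fun i => ¬ mlt l x I i ≤ ⌊16 / δ⌋₊ with hJ'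
  set W' := J'.image fun i => win x i l with hW'
  have hsub : (J.filter fun i => mlt l x I i ≤ ⌊16 / δ⌋₊) ⊆ sel l ⌊16 / δ⌋₊ x b := by
    intro i hi
    obtain ⟨h1, h2⟩ := Finset.mem_filter.1 hi
    have h3 := Finset.mem_Ico.1 h1
    exact Finset.mem_filter.2 ⟨Finset.mem_range.2 (by omega), by omega, h2⟩
  have h1 : (J.image fun i => win x i l).card ≤ (sel l ⌊16 / δ⌋₊ x b).card + W'.card := by
    have e : J.image (fun i => win x i l) =
        (J.filter fun i => mlt l x I i ≤ ⌊16 / δ⌋₊).image (fun i => win x i l) ∪ W' := by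
      rw [hW', ← Finset.image_union, hJ', Finset.filter_union_filter_not_eq]
    rw [e]
    exact (Finset.card_union_le _ _).trans (Nat.add_le_add_right
      (Finset.card_image_le.trans (Finset.card_le_card hsub)) _)
  have h2 : (W'.card : ℝ) * (16 / δ) ≤ b := by
    have h3 := Finset.card_eq_sum_card_fiberwise (s := I.filter fun i => win x i l ∈ W')
      (f := fun i => win x i l) (t := W') (fun i hi => (Finset.mem_filter.1 hi).2)
    have h4 : ∀ w ∈ W', (16 / δ : ℝ) ≤
        (((I.filter fun i => win x i l ∈ W').filter fun i => win x i l = w).card : ℝ) := by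
      intro w hw
      obtain ⟨i, hi, hiw⟩ := Finset.mem_image.1 hw
      obtain ⟨hi1, hi2⟩ := Finset.mem_filter.1 hi
      rw [not_le] at hi2
      have hi3 : (16 / δ : ℝ) ≤ (mlt l x I i : ℝ) := (Nat.lt_of_floor_lt hi2).le
      refine hi3.trans ?_
      unfold mlt
      have h5 : (I.filter fun j => win x j l = win x i l).card ≤
          ((I.filter fun i => win x i l ∈ W').filter fun i => win x i l = w).card := by
        refine Finset.card_le_card fun j hj => ?_
        obtain ⟨hj1, hj2⟩ := Finset.mem_filter.1 hj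
        refine Finset.mem_filter.2 ⟨Finset.mem_filter.2 ⟨hj1, ?_⟩, hj2.trans hiw⟩
        rw [hj2, hiw]; exact hw
      exact_mod_cast h5
    have h6 := Finset.card_nsmul_le_sum W' (fun w =>
      (((I.filter fun i => win x i l ∈ W').filter fun i => win x i l = w).card : ℝ)) (16 / δ) h4
    rw [nsmul_eq_mul] at h6
    refine h6.trans ?_
    have h7 : ((I.filter fun i => win x i l ∈ W').card : ℝ) ≤ b := by
      refine le_trans ?_ hIm
      exact_mod_cast Finset.card_filter_le _ _
    rw [h3] at h7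
    push_cast at h7
    exact h7
  have h3 : (W'.card : ℝ) ≤ δ * b / 16 := by
    have e : (W'.card : ℝ) = (W'.card : ℝ) * (16 / δ) * (δ / 16) := by field_simp
    rw [e]
    have := mul_le_mul_of_nonneg_right h2 (show (0 : ℝ) ≤ δ / 16 by positivity)
    linarith
  have h4 : ((b : ℝ) - 3) / 4 ≤ ((b / 4 : ℕ) : ℝ) := by
    have h5 : b ≤ 4 * (b / 4) + 3 := by omega
    have h6 : (b : ℝ) ≤ 4 * ((b / 4 : ℕ) : ℝ) + 3 := by exact_mod_cast h5
    linarith
  have h5 : (((J.image fun i => win x i l).card : ℕ) : ℝ) ≤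
      ((sel l ⌊16 / δ⌋₊ x b).card : ℝ) + W'.card := by
    exact_mod_cast h1
  have h6 := mul_le_mul_of_nonneg_left h4 hδ.le
  have h7 := mul_le_mul_of_nonneg_left hb12 hδ.le
  linarith

end DeckL
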