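import Pool.Agent.DeckL.Pair

/-!
# Strings with the same deck: the theorems
-/

namespace DeckL

open DeckA DeckG

/-- Both ends. -/
theorem pair_main {n l S s k M : ℕ} {θ : ℝ} (hn : 2 ≤ n) (hl : 1 ≤ l) (hlS : l ≤ S)
    (hSs : S ≤ s) (hsn : s ≤ n) (hθ : 0 < θ) (hθ1 : θ ≤ 1)
    (hkk : 5 * 10 ^ 6 * (l * Real.sqrt (n / s) * (M + Real.sqrt (S * Real.log n / θ)) *
      Real.log n ^ 6 / θ) ≤ k) (hkn : k ≤ n)
    (x y : Fin n → Bool) (hxy : deck k x = deck k y) (u a b : List Bool) :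
    (List.ofFn x = u ++ a → List.ofFn y = u ++ b → a.head? ≠ b.head? →
      ∃ v, v <+: a ∧ S ≤ v.length ∧ v.length ≤ s ∧ (seldom l M v : ℝ) < θ * v.length) ∧
    (List.ofFn x = a ++ u → List.ofFn y = b ++ u → a.getLast? ≠ b.getLast? →
      ∃ v, v <+: a.reverse ∧ S ≤ v.length ∧ v.length ≤ s ∧
        (seldom l M v : ℝ) < θ * v.length) := by
  have hcnt := cnt_eq_of_deck hkn hxy
  constructor
  · intro h1 h2 h3
    have e1 := congrArg List.length h1
    have e2 := congrArg List.length h2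
    rw [List.length_ofFn, List.length_append] at e1 e2
    rw [h1, h2] at hcnt
    exact pair_prefix hn hl hlS hSs hsn hθ hθ1 hkk (by omega) (by omega) hcnt h3
  · intro h1 h2 h3
    have e1 := congrArg List.length h1
    have e2 := congrArg List.length h2
    rw [List.length_ofFn, List.length_append] at e1 e2
    rw [h1, h2] at hcnt
    exact pair_suffix hn hl hlS hSs hsn hθ hθ1 hkk (by omega) (by omega) hcnt h3

lemma factor_cost {l0 ρ M0 L δ S : ℝ} (hL : 0 ≤ L) (hl : 0 ≤ l0) (hρ : 0 ≤ ρ)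
    (hδ : 0 < δ) (hM : M0 ≤ 16 / δ) (hS : 0 ≤ S) :
    5 * 10 ^ 6 * (l0 * ρ * (M0 + Real.sqrt (12 * S * L / (δ / 8))) * L ^ 6 / (δ / 8)) ≤
      10 ^ 9 * (l0 * ρ * (1 / δ + Real.sqrt (S * L / δ)) * L ^ 6 / δ) := by
  have h1 : Real.sqrt (12 * S * L / (δ / 8)) ≤ 16 * Real.sqrt (S * L / δ) := by
    rw [Real.sqrt_le_left (by positivity), mul_pow, Real.sq_sqrt (by positivity)]
    have e : 12 * S * L / (δ / 8) = 96 * (S * L / δ) := by field_simp; ring
    rw [e]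
    have : 0 ≤ S * L / δ := by positivity
    linarith
  have h2 : M0 + Real.sqrt (12 * S * L / (δ / 8)) ≤ 16 * (1 / δ + Real.sqrt (S * L / δ)) := by
    have e : 16 / δ = 16 * (1 / δ) := by ring
    linarith
  have h3 := mul_le_mul_of_nonneg_left h2 (show 0 ≤ l0 * ρ * (L ^ 6 / δ) by positivity)
  have e1 : 5 * 10 ^ 6 * (l0 * ρ * (M0 + Real.sqrt (12 * S * L / (δ / 8))) * L ^ 6 / (δ / 8)) =
      4 * 10 ^ 7 * (l0 * ρ * (L ^ 6 / δ) * (M0 + Real.sqrt (12 * S * L / (δ / 8)))) := by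
    generalize Real.sqrt (12 * S * L / (δ / 8)) = q
    field_simp
    ring
  have e2 : 10 ^ 9 * (l0 * ρ * (1 / δ + Real.sqrt (S * L / δ)) * L ^ 6 / δ) =
      10 ^ 9 * (l0 * ρ * (L ^ 6 / δ) * (1 / δ + Real.sqrt (S * L / δ))) := by ring
  rw [e1, e2]
  have h4 : 0 ≤ l0 * ρ * (L ^ 6 / δ) * (1 / δ + Real.sqrt (S * L / δ)) := by positivity
  linarith

/-- Strings with many factors are reconstructible. -/
theorem recon_local {n l S s k : ℕ} {δ : ℝ} (hn : 2 ≤ n) (hl : 1 ≤ l) (hlS : l ≤ S)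
    (hSs : S ≤ s) (hsn : s ≤ n) (hδ : 0 < δ) (hδ1 : δ ≤ 1)
    (hkk : 10 ^ 9 * (l * Real.sqrt (n / s) * (1 / δ + Real.sqrt (S * Real.log n / δ)) *
      Real.log n ^ 6 / δ) ≤ k) (hkn : k ≤ n)
    (x : Fin n → Bool)
    (hx : ∀ v : List Bool, v <:+: List.ofFn x → S ≤ v.length → v.length ≤ s →
      δ * (v.length : ℝ) ≤ (nfac l v : ℝ)) : Reconstructible k x := by
  intro y hy
  by_contra hne
  have hne' : List.ofFn x ≠ List.ofFn y := fun h => hne (List.ofFn_injective h).symm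
  have hL := logn_ge hn
  have hn2 : (2 : ℝ) ≤ n := by exact_mod_cast hn
  have hl1 : (1 : ℝ) ≤ l := by exact_mod_cast hl
  have hS1 : 1 ≤ S := hl.trans hlS
  have hS1' : (1 : ℝ) ≤ S := by exact_mod_cast hS1
  have hs1' : (1 : ℝ) ≤ s := by exact_mod_cast hS1.trans hSs
  have hsn' : (s : ℝ) ≤ n := by exact_mod_cast hsn
  have hρ1 : 1 ≤ Real.sqrt ((n : ℝ) / s) :=
    Real.one_le_sqrt.2 (by rw [le_div_iff₀ (by linarith)]; linarith)
  by_cases hs12 : 12 * S ≤ s
  · obtain ⟨x', y', p, c, c', hc, h1, h2⟩ := exists_last_diff (by simp) hne'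
    have hcost := factor_cost (l0 := l) (ρ := Real.sqrt ((n : ℝ) / s)) (M0 := (⌊16 / δ⌋₊ : ℝ))
      (L := Real.log n) (δ := δ) (S := S) (by linarith) (by linarith) (by linarith) hδ
      (Nat.floor_le (by positivity)) (by linarith)
    obtain ⟨v, h3, h4, h5, h6⟩ := (pair_main (l := l) (S := 12 * S) (s := s) (k := k)
      (M := ⌊16 / δ⌋₊) (θ := δ / 8) hn hl (by omega) hs12 hsn (by positivity) (by linarith)
      (by push_cast; exact hcost.trans hkk) hkn x y hy.symm p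
      (x' ++ [c]) (y' ++ [c'])).2 (by simp [h1]) (by simp [h2]) (by simpa using hc)
    set b := v.length with hb
    set X := seqOf v.reverse with hX
    have hXv : pre X b = v.reverse := by
      have := pre_seqOf v.reverse
      rwa [List.length_reverse] at this
    have h7 : v.reverse <:+: List.ofFn x := by
      have h8 : v.reverse <:+ x' ++ [c] := by
        rw [← List.reverse_prefix, List.reverse_reverse]
        exact h3
      refine h8.isInfix.trans ?_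
      rw [h1]
      exact ⟨[], p, by simp⟩
    have h8 := hx (win X 0 (b / 4 - 0))
      ((win_infix X (Nat.zero_le (b / 4)) (Nat.div_le_self b 4)).trans (hXv ▸ h7))
      (by rw [length_win]; omega) (by rw [length_win]; omega)
    rw [length_win, Nat.sub_zero] at h8
    have h9 : (nfac l (win X 0 (b / 4)) : ℝ) ≤
        (((Finset.Ico 0 (b / 4 + 1 - l)).image fun i => win X i l).card : ℝ) := by
      exact_mod_cast nfac_win l X (Nat.zero_le (b / 4))
    have h10 := sel_of_nfac X hl (by omega) (by omega) hδ (h8.trans h9)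
    have h11 : seldom l ⌊16 / δ⌋₊ v = (sel l ⌊16 / δ⌋₊ X b).card := by
      rw [← seldom_eq, hXv, List.reverse_reverse]
    rw [h11] at h6
    linarith
  · -- short windows
    apply hne'
    set X := seqOf (List.ofFn x) with hX
    set Y := seqOf (List.ofFn y) with hY
    have hXp : pre X n = List.ofFn x := by
      have := pre_seqOf (List.ofFn x)
      rwa [List.length_ofFn] at this
    have hYp : pre Y n = List.ofFn y := by
      have := pre_seqOf (List.ofFn y)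
      rwa [List.length_ofFn] at this
    have hcnt : ∀ z : List Bool, z.length ≤ k → cnt z (pre X n) = cnt z (pre Y n) := by
      rw [hXp, hYp]
      exact cnt_eq_of_deck hkn hy.symm
    have hs : (s : ℝ) ≤ 12 * S := by
      have : s ≤ 12 * S := by omega
      exact_mod_cast this
    have hnS : (n : ℝ) ≤ 12 * (Real.sqrt ((n : ℝ) / s) * Real.sqrt S) ^ 2 := by
      rw [mul_pow, Real.sq_sqrt (by positivity), Real.sq_sqrt (by positivity)]
      have h4 := mul_le_mul_of_nonneg_left hs (show (0 : ℝ) ≤ n / s by positivity)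
      have e : (n : ℝ) / s * s = n := by field_simp
      linarith
    have h2 : Real.sqrt ((n + 1 : ℕ) : ℝ) ≤ 6 * (Real.sqrt ((n : ℝ) / s) * Real.sqrt S) := by
      rw [Real.sqrt_le_left (by positivity), mul_pow]
      push_cast
      norm_num at hnS ⊢
      linarith
    have h3 : Real.log ((n + 1 : ℕ) : ℝ) ≤ 2 * Real.log n := by
      have h4 : ((n + 1 : ℕ) : ℝ) ≤ (n : ℝ) ^ 2 := by
        have := mul_le_mul_of_nonneg_right hn2 (show (0 : ℝ) ≤ n by linarith)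
        push_cast
        rw [pow_two]; linarith
      have h5 := Real.log_le_log (by positivity) h4
      rw [Real.log_pow] at h5
      simpa using h5
    have h4 : 0 ≤ Real.log ((n + 1 : ℕ) : ℝ) :=
      Real.log_nonneg (by push_cast; linarith)
    have h5 : Real.sqrt ((n + 1 : ℕ) : ℝ) * Real.log ((n + 1 : ℕ) : ℝ) ≤
        6 * (Real.sqrt ((n : ℝ) / s) * Real.sqrt S) * (2 * Real.log n) :=
      mul_le_mul h2 h3 h4 (by positivity)
    have h6 := short_cost (l0 := l) (ρ := Real.sqrt ((n : ℝ) / s)) (M0 := 1 / δ)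
      (L := Real.log n) (θ := δ) (S := S) hL hl1 hρ1 (by positivity) hδ hδ1 hS1'
    have h7 : 0 ≤ Real.sqrt ((n : ℝ) / s) * Real.sqrt S * Real.log n := by positivity
    have h8 := fin_exact (S := n + 1) (k' := k) (by omega) (by linarith) (u := pre X n)
      (w := pre Y n) (by simp) (by simp) hcnt
    rw [← hXp, ← hYp, h8]

open Filter in
/-- The asymptotic form. -/
theorem all_scales {ε : ℝ} (hε : 0 < ε) (hε' : ε < 1 / 9) :
    ∃ N : ℕ, ∀ n k : ℕ, N ≤ n → k ≤ n → (n : ℝ) ^ (1 / 2 - ε) ≤ k → ∀ x y : Fin n → Bool,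
      deck k x = deck k y → ∀ u a b : List Bool, List.ofFn x = u ++ a → List.ofFn y = u ++ b →
      a.head? ≠ b.head? → ∀ S : ℕ, (n : ℝ) ^ ε ≤ S → (S : ℝ) ≤ (n : ℝ) ^ (1 - 8 * ε) →
      ∃ v, v <+: a ∧ S ≤ v.length ∧ (v.length : ℝ) ≤ (n : ℝ) ^ (8 * ε) * S ∧
        (seldom ⌈(n : ℝ) ^ ε⌉₊ (Nat.sqrt S) v : ℝ) < (n : ℝ) ^ (-ε) * v.length := by
  have hlo := (isLittleO_log_rpow_rpow_atTop (s := ε / 2) 7 (by positivity)).bound
    (show (0 : ℝ) < 1 / 10 ^ 9 by norm_num)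
  have hev := (tendsto_natCast_atTop_atTop (R := ℝ)).eventually hlo
  obtain ⟨N0, hN0⟩ := eventually_atTop.1 hev
  refine ⟨max N0 2, fun n k hn hkn hk x y hxy u a b hx hy hne S hS1 hS2 => ?_⟩
  have hn2 : 2 ≤ n := le_trans (le_max_right _ _) hn
  have hnr : (2 : ℝ) ≤ n := by exact_mod_cast hn2
  have hn1 : (1 : ℝ) ≤ n := by linarith
  have hn0 : (0 : ℝ) < n := by linarith
  have hL := logn_ge hn2
  have hlog : 10 ^ 9 * Real.log n ^ 7 ≤ (n : ℝ) ^ (ε / 2) := by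
    have h1 := hN0 n (le_trans (le_max_left _ _) hn)
    have h2 : Real.log (n : ℝ) ^ (7 : ℝ) = Real.log n ^ 7 := by
      rw [← Real.rpow_natCast]; norm_num
    rw [h2, Real.norm_eq_abs, Real.norm_eq_abs, abs_of_nonneg (by positivity),
      abs_of_nonneg (by positivity)] at h1
    linarith
  have hp1 : (1 : ℝ) ≤ (n : ℝ) ^ ε := Real.one_le_rpow hn1 hε.le
  have hp2 : (1 : ℝ) ≤ (n : ℝ) ^ (ε / 2) := Real.one_le_rpow hn1 (by positivity)
  have hp9 : (1 : ℝ) ≤ (n : ℝ) ^ (8 * ε) := Real.one_le_rpow hn1 (by positivity)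
  have hS0 : (1 : ℝ) ≤ S := hp1.trans hS1
  set s := ⌊(n : ℝ) ^ (8 * ε) * S⌋₊ with hs
  have hs1 : (s : ℝ) ≤ (n : ℝ) ^ (8 * ε) * S := Nat.floor_le (by positivity)
  have hs3 : (1 : ℝ) ≤ s := by
    have h3 : 1 ≤ s := Nat.le_floor (by
      have := mul_le_mul hp9 hS0 (by norm_num) (by positivity)
      push_cast; linarith)
    exact_mod_cast h3
  have hs2 : (n : ℝ) ^ (8 * ε) * S ≤ 2 * s := by
    have h1 := Nat.lt_floor_add_one ((n : ℝ) ^ (8 * ε) * S)
    rw [← hs] at h1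
    linarith
  have hSs : S ≤ s := Nat.le_floor (by
    have := mul_le_mul_of_nonneg_right hp9 (show (0 : ℝ) ≤ S by linarith)
    linarith)
  have hsn : s ≤ n := by
    have h1 : (s : ℝ) ≤ n := by
      refine hs1.trans ?_
      calc (n : ℝ) ^ (8 * ε) * S ≤ (n : ℝ) ^ (8 * ε) * (n : ℝ) ^ (1 - 8 * ε) :=
            mul_le_mul_of_nonneg_left hS2 (by positivity)
        _ = n := by
            rw [← Real.rpow_add hn0]
            have : 8 * ε + (1 - 8 * ε) = 1 := by ring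
            rw [this, Real.rpow_one]
    exact_mod_cast h1
  have hcond : 5 * 10 ^ 6 * ((⌈(n : ℝ) ^ ε⌉₊ : ℝ) * Real.sqrt (n / s) *
      ((Nat.sqrt S : ℕ) + Real.sqrt (S * Real.log n / (n : ℝ) ^ (-ε))) *
      Real.log n ^ 6 / (n : ℝ) ^ (-ε)) ≤ k := by
    refine le_trans ?_ hk
    have hl : (⌈(n : ℝ) ^ ε⌉₊ : ℝ) ≤ 2 * (n : ℝ) ^ ε := by
      have := (Nat.ceil_lt_add_one (a := (n : ℝ) ^ ε) (by positivity)).le
      linarith
    have hinv : (n : ℝ) ^ (-ε) = ((n : ℝ) ^ ε)⁻¹ := Real.rpow_neg hn0.le ε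
    rw [hinv, div_inv_eq_mul, div_inv_eq_mul]
    have hS : Real.sqrt (n / s) * Real.sqrt S ≤ 2 * (n : ℝ) ^ ((1 - 8 * ε) / 2) := by
      rw [← Real.sqrt_mul (by positivity), Real.sqrt_le_left (by positivity)]
      have h2 : (2 * (n : ℝ) ^ ((1 - 8 * ε) / 2)) ^ 2 = 4 * (n : ℝ) ^ (1 - 8 * ε) := by
        rw [mul_pow, ← Real.rpow_natCast ((n : ℝ) ^ ((1 - 8 * ε) / 2)) 2, ← Real.rpow_mul hn0.le]
        norm_num
      have e0 : (n : ℝ) / s * S = n * S / s := by ring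
      rw [h2, e0, div_le_iff₀ (by linarith)]
      have h3 := mul_le_mul_of_nonneg_left hs2
        (show (0 : ℝ) ≤ (n : ℝ) ^ (1 - 8 * ε) by positivity)
      have h4 : (n : ℝ) ^ (1 - 8 * ε) * ((n : ℝ) ^ (8 * ε) * S) = n * S := by
        rw [← mul_assoc, ← Real.rpow_add hn0]
        have : 1 - 8 * ε + 8 * ε = 1 := by ring
        rw [this, Real.rpow_one]
      have h5 : 0 ≤ (n : ℝ) * S := by positivity
      linarith
    have hY : ((Nat.sqrt S : ℕ) : ℝ) + Real.sqrt (S * Real.log n * (n : ℝ) ^ ε) ≤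
        Real.sqrt S * (4 * Real.log n * (n : ℝ) ^ (ε / 2)) := by
      have h1 : ((Nat.sqrt S : ℕ) : ℝ) ≤ Real.sqrt S := Real.nat_sqrt_le_real_sqrt
      have h2 : Real.sqrt (S * Real.log n * (n : ℝ) ^ ε) ≤
          Real.sqrt S * (2 * Real.log n * (n : ℝ) ^ (ε / 2)) := by
        rw [Real.sqrt_le_left (by positivity), mul_pow, Real.sq_sqrt (by positivity), mul_pow]
        have h3 : ((n : ℝ) ^ (ε / 2)) ^ 2 = (n : ℝ) ^ ε := by
          rw [← Real.rpow_natCast ((n : ℝ) ^ (ε / 2)) 2, ← Real.rpow_mul hn0.le]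
          congr 1
          push_cast
          ring
        rw [h3]
        have h4 : Real.log n ≤ (2 * Real.log n) ^ 2 := by
          have := mul_le_mul_of_nonneg_left hL (show 0 ≤ Real.log n by linarith)
          have e : (2 * Real.log (n : ℝ)) ^ 2 = 4 * (Real.log n * Real.log n) := by ring
          rw [e]; norm_num at this ⊢; linarith
        have h5 := mul_le_mul_of_nonneg_right h4 (show 0 ≤ (S : ℝ) * (n : ℝ) ^ ε by positivity)
        linarith
      have h3 : (1 : ℝ) ≤ 2 * Real.log n * (n : ℝ) ^ (ε / 2) := by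
        have := mul_le_mul (show (1 : ℝ) ≤ 2 * Real.log n by norm_num at hL ⊢; linarith) hp2
          (by norm_num) (by linarith)
        linarith
      have h4 := mul_le_mul_of_nonneg_left h3 (Real.sqrt_nonneg S)
      linarith
    have h1 : (⌈(n : ℝ) ^ ε⌉₊ : ℝ) * Real.sqrt (n / s) *
        ((Nat.sqrt S : ℕ) + Real.sqrt (S * Real.log n * (n : ℝ) ^ ε)) ≤
        2 * (n : ℝ) ^ ε * (2 * (n : ℝ) ^ ((1 - 8 * ε) / 2)) *
          (4 * Real.log n * (n : ℝ) ^ (ε / 2)) := by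
      have h2 := mul_le_mul_of_nonneg_left hY
        (show 0 ≤ (⌈(n : ℝ) ^ ε⌉₊ : ℝ) * Real.sqrt (n / s) by positivity)
      have h3 : (⌈(n : ℝ) ^ ε⌉₊ : ℝ) * (Real.sqrt (n / s) * Real.sqrt S) ≤
          2 * (n : ℝ) ^ ε * (2 * (n : ℝ) ^ ((1 - 8 * ε) / 2)) :=
        mul_le_mul hl hS (by positivity) (by positivity)
      have h4 := mul_le_mul_of_nonneg_right h3
        (show 0 ≤ 4 * Real.log n * (n : ℝ) ^ (ε / 2) by positivity)
      refine h2.trans (le_trans (le_of_eq ?_) h4)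
      ring
    have h2 := mul_le_mul_of_nonneg_right h1
      (show 0 ≤ 5 * 10 ^ 6 * (Real.log n ^ 6 * (n : ℝ) ^ ε) by positivity)
    have h5 : (10 ^ 9 * Real.log n ^ 7) *
          ((n : ℝ) ^ ε * (n : ℝ) ^ ((1 - 8 * ε) / 2) * (n : ℝ) ^ (ε / 2) * (n : ℝ) ^ ε) ≤
        (n : ℝ) ^ (ε / 2) *
          ((n : ℝ) ^ ε * (n : ℝ) ^ ((1 - 8 * ε) / 2) * (n : ℝ) ^ (ε / 2) * (n : ℝ) ^ ε) :=
      mul_le_mul_of_nonneg_right hlog (by positivity)
    have h6 : (n : ℝ) ^ (ε / 2) *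
          ((n : ℝ) ^ ε * (n : ℝ) ^ ((1 - 8 * ε) / 2) * (n : ℝ) ^ (ε / 2) * (n : ℝ) ^ ε) =
        (n : ℝ) ^ (1 / 2 - ε) := by
      rw [← Real.rpow_add hn0, ← Real.rpow_add hn0, ← Real.rpow_add hn0, ← Real.rpow_add hn0]
      congr 1
      ring
    have h7 : 0 ≤ Real.log n ^ 7 *
        ((n : ℝ) ^ ε * (n : ℝ) ^ ((1 - 8 * ε) / 2) * (n : ℝ) ^ (ε / 2) * (n : ℝ) ^ ε) := by
      positivity
    rw [h6] at h5
    refine le_trans (le_of_eq ?_) (h2.trans (le_trans ?_ h5))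
    · ring
    · have e : 2 * (n : ℝ) ^ ε * (2 * (n : ℝ) ^ ((1 - 8 * ε) / 2)) *
          (4 * Real.log n * (n : ℝ) ^ (ε / 2)) * (5 * 10 ^ 6 * (Real.log n ^ 6 * (n : ℝ) ^ ε)) =
          8 * 10 ^ 7 * (Real.log n ^ 7 *
        ((n : ℝ) ^ ε * (n : ℝ) ^ ((1 - 8 * ε) / 2) * (n : ℝ) ^ (ε / 2) * (n : ℝ) ^ ε)) := by
        ring
      rw [e]
      linarith
  obtain ⟨v, h1, h2, h3, h4⟩ := (pair_main (l := ⌈(n : ℝ) ^ ε⌉₊) (S := S) (s := s)
    (M := Nat.sqrt S)
    (θ := (n : ℝ) ^ (-ε)) hn2 (Nat.one_le_ceil_iff.2 (by linarith)) (Nat.ceil_le.2 hS1) hSs hsn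
    (by positivity) (by
      rw [Real.rpow_neg hn0.le]
      exact inv_le_one_of_one_le₀ hp1) hcond hkn x y hxy u a b).1 hx hy hne
  refine ⟨v, h1, h2, ?_, h4⟩
  have : (v.length : ℝ) ≤ s := by exact_mod_cast h3
  linarith

end DeckL
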