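import Pool.Agent.DeckL.Par

/-!
# The local theorem at the first difference
-/

namespace DeckL

open DeckA DeckG

/-- Short windows: the known `√n log n` bound. -/
lemma short_case {n k : ℕ} {L w ρ Y z lr : ℝ} (hn : 2 ≤ n) (hL : L = Real.log n) (hw : L ≤ w)
    (hl : 1 ≤ lr) (hρ0 : 0 ≤ ρ) (hz0 : 0 ≤ z) (hY : z ≤ Y)
    (hnz : (n : ℝ) ≤ 17.5 * (ρ * z) ^ 2)
    (hk : 5 * 10 ^ 6 * (lr * ρ * Y * (w * L ^ 5)) ≤ k) :
    50 * Real.sqrt ((n + 1 : ℕ) : ℝ) * Real.log ((n + 1 : ℕ) : ℝ) ≤ k := by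
  have hL1 : 0.69 ≤ L := hL ▸ logn_ge hn
  have hL0 : 0 ≤ L := by linarith
  have hw0 : 0 ≤ w := by linarith
  have hn2 : (2 : ℝ) ≤ n := by exact_mod_cast hn
  have h2 : Real.sqrt ((n + 1 : ℕ) : ℝ) ≤ 6 * (ρ * z) := by
    rw [Real.sqrt_le_left (by positivity), mul_pow]
    push_cast
    norm_num at hnz ⊢
    linarith
  have h3 : Real.log ((n + 1 : ℕ) : ℝ) ≤ 2 * L := by
    have h4 : ((n + 1 : ℕ) : ℝ) ≤ (n : ℝ) ^ 2 := by
      have := mul_le_mul_of_nonneg_right hn2 (show (0 : ℝ) ≤ n by linarith)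
      push_cast
      rw [pow_two]; linarith
    have h5 := Real.log_le_log (by positivity) h4
    rw [Real.log_pow] at h5
    rw [hL]
    simpa using h5
  have h4 : 0 ≤ Real.log ((n + 1 : ℕ) : ℝ) :=
    Real.log_nonneg (by push_cast; linarith)
  have h5 : Real.sqrt ((n + 1 : ℕ) : ℝ) * Real.log ((n + 1 : ℕ) : ℝ) ≤ 6 * (ρ * z) * (2 * L) :=
    mul_le_mul h2 h3 h4 (by positivity)
  have hL4 : (0.2 : ℝ) ≤ L ^ 4 := by
    have := pow_le_pow_left₀ (by norm_num) hL1 4
    norm_num at this ⊢; linarith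
  have hwL4 : (0.69 * 0.2 : ℝ) ≤ w * L ^ 4 :=
    mul_le_mul (hL1.trans hw) hL4 (by norm_num) (by linarith)
  have hlw : 1 * (0.69 * 0.2 : ℝ) ≤ lr * (w * L ^ 4) :=
    mul_le_mul hl hwL4 (by norm_num) (by linarith)
  have h6 : 600 * (ρ * z * L) ≤ 5 * 10 ^ 6 * (lr * ρ * Y * (w * L ^ 5)) := by
    have h7 : (600 : ℝ) ≤ 5 * 10 ^ 6 * (lr * (w * L ^ 4)) := by linarith
    have h8 := mul_le_mul_of_nonneg_left h7 (show 0 ≤ ρ * z * L by positivity)
    have h9 := mul_le_mul_of_nonneg_left hY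
      (show 0 ≤ 5 * 10 ^ 6 * (lr * ρ * (w * L ^ 5)) by positivity)
    have e : ρ * z * L * (5 * 10 ^ 6 * (lr * (w * L ^ 4))) =
        5 * 10 ^ 6 * (lr * ρ * (w * L ^ 5)) * z := by ring
    have e2 : 5 * 10 ^ 6 * (lr * ρ * (w * L ^ 5)) * Y =
        5 * 10 ^ 6 * (lr * ρ * Y * (w * L ^ 5)) := by ring
    linarith
  linarith

/-- **The local theorem.** -/
theorem part_local {n l S s k M0 : ℕ} {θ : ℝ} (hn : 2 ≤ n) (hl : 1 ≤ l) (hlS : l ≤ S)
    (hSs : S ≤ s) (hsn : s ≤ n) (hθ : 0 < θ) (hθ1 : θ ≤ 1) (x y : ℕ → Bool)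
    (hk : ∀ z : List Bool, z.length ≤ k → cnt z (pre x n) = cnt z (pre y n))
    (hsel : ∀ b, S ≤ b → b ≤ s → θ * (b : ℝ) ≤ ((sel l M0 x b).card : ℝ))
    (hkk : 5 * 10 ^ 6 * (l * Real.sqrt (n / s) * (M0 + Real.sqrt (S * Real.log n / θ)) *
      Real.log n ^ 6 / θ) ≤ k) :
    x 0 = y 0 := by
  have hn2 : (2 : ℝ) ≤ n := by exact_mod_cast hn
  have hL := logn_ge hn
  obtain ⟨σ, hσ1, hσ2, hσ3⟩ := par_sigma hn hθ hθ1
  set L := Real.log n with hLdef
  have hL0 : 0 ≤ L := by linarith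
  have hwL := w_ge hL hθ hθ1
  set w := L / θ with hw
  have hw0 : 0 ≤ w := by linarith
  have hl1 : (1 : ℝ) ≤ l := by exact_mod_cast hl
  have hS1 : 1 ≤ S := hl.trans hlS
  have hS1' : (1 : ℝ) ≤ S := by exact_mod_cast hS1
  have hlS' : (l : ℝ) ≤ S := by exact_mod_cast hlS
  have hs1' : (1 : ℝ) ≤ s := by exact_mod_cast hS1.trans hSs
  have hsn' : (s : ℝ) ≤ n := by exact_mod_cast hsn
  set z := Real.sqrt (S * L / θ) with hz
  have hz2 : z ^ 2 = S * w := by
    rw [hz, Real.sq_sqrt (by positivity), hw]; ring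
  have hSw : 0.69 ≤ (S : ℝ) * w := by
    have := mul_le_mul hS1' (hL.trans hwL) (by norm_num) (by linarith)
    linarith
  have hz1 : 0.83 ≤ z := by
    rw [hz]
    apply Real.le_sqrt_of_sq_le
    have e : (S : ℝ) * L / θ = S * w := by rw [hw]; ring
    rw [e]
    norm_num at hSw ⊢; linarith
  have hz0 : 0 ≤ z := by linarith
  have hM0 : (0 : ℝ) ≤ M0 := Nat.cast_nonneg M0
  set ρ := Real.sqrt (n / s) with hρ
  have hρ1 : 1 ≤ ρ := Real.one_le_sqrt.2 (by rw [le_div_iff₀ (by linarith)]; linarith)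
  have hX : l * ρ * (M0 + z) * L ^ 6 / θ = l * ρ * (M0 + z) * (w * L ^ 5) := by
    rw [hw]; ring
  rw [hX] at hkk
  set t := σ * l with ht
  have ht1 : (t : ℝ) ≤ 13.1 * w * l := by
    rw [ht]; push_cast
    exact mul_le_mul_of_nonneg_right hσ3 (by linarith)
  have ht0 : 1 ≤ t := Nat.mul_pos hσ1 hl
  set S' := S + t + 2 with hS'
  have hS'b : (S' : ℝ) ≤ 17.5 * z ^ 2 := by
    have h1 : 13.1 * w * l ≤ 13.1 * w * S := mul_le_mul_of_nonneg_left hlS' (by positivity)
    have h2 := mul_le_mul_of_nonneg_right (hL.trans hwL) (show (0 : ℝ) ≤ S by linarith)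
    rw [hz2, hS']; push_cast
    linarith
  by_cases hS's : S' ≤ s
  · -- the main case
    have hlogS' : Real.log S' ≤ L := by
      apply Real.log_le_log
      · rw [hS']; push_cast; positivity
      · exact_mod_cast hS's.trans hsn
    set k' := ⌈50 * Real.sqrt S' * Real.log S'⌉₊ with hk'
    have hk'b := par_k' hL hz1 (by omega) hS'b hlogS' hk'
    set μ := 2 * M0 + 1 with hμ
    set R := Nat.log 4 n + 1 with hR
    obtain ⟨hR1, hR2⟩ := par_R hn
    rw [← hR, ← hLdef] at hR2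
    set Λ := 2 * μ + 2 + ((2 * μ + 1) * R + k') with hΛ
    have hΛb : (Λ : ℝ) ≤ 228 * ((M0 + z) * L) := par_Lam hL hz1 hR2 hk'b
    have hΛ4 : (4 : ℝ) ≤ Λ := by
      have : 4 ≤ Λ := by omega
      exact_mod_cast this
    set m := ⌈2.5 * ρ * (Λ * L / 2 + 1)⌉₊ with hm
    have hmb : (m : ℝ) ≤ 2.53 * (ρ * Λ * L) := par_m hL hΛ4 hρ1 hm
    set M := Λ * (Nat.log 2 n + 1) + 2 * m * (Nat.log 2 (5 * n) + 1) + 1 with hM
    have hMb : ((2 * M - 1 : ℕ) : ℝ) ≤ 75 * (ρ * Λ * L ^ 2) := by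
      have h1 := par_M hL hΛ4 hρ1 hmb (par_log1 hn) (by positivity) (par_log5 hn)
      have h2 : ((2 * M - 1 : ℕ) : ℝ) ≤ ((2 * M : ℕ) : ℝ) := by exact_mod_cast Nat.sub_le _ _
      refine h2.trans (le_trans (le_of_eq ?_) h1)
      rw [hM]; push_cast; ring
    -- the bound `B`
    set B := n ^ (2 * μ + 1 + ((2 * μ + 1) * R + k')) with hB
    have hBM : B * (5 * n) ^ (2 * m) < 2 ^ M := by
      have h1 : n ≤ 2 ^ (Nat.log 2 n + 1) := (Nat.lt_pow_succ_log_self (by norm_num) n).le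
      have h2 : 5 * n ≤ 2 ^ (Nat.log 2 (5 * n) + 1) :=
        (Nat.lt_pow_succ_log_self (by norm_num) (5 * n)).le
      have h3 : B ≤ 2 ^ ((Nat.log 2 n + 1) * Λ) := by
        rw [pow_mul]
        refine le_trans ?_ (Nat.pow_le_pow_left h1 Λ)
        exact Nat.pow_le_pow_right (by omega) (by omega)
      have h4 : (5 * n) ^ (2 * m) ≤ 2 ^ ((Nat.log 2 (5 * n) + 1) * (2 * m)) := by
        refine (Nat.pow_le_pow_left h2 (2 * m)).trans (le_of_eq ?_)
        rw [← pow_mul]
      refine lt_of_le_of_lt (Nat.mul_le_mul h3 h4) ?_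
      rw [← pow_add]
      refine Nat.pow_lt_pow_right (by norm_num) ?_
      rw [hM, Nat.mul_comm Λ, Nat.mul_comm (2 * m)]
      exact Nat.lt_succ_self _
    have hlogB : Real.log ((B : ℝ) + 1) ≤ Λ * L := by
      have h1 : 1 ≤ B := Nat.one_le_pow _ _ (by omega)
      have h2 : B + 1 ≤ n ^ Λ := by
        have e : n ^ Λ = B * n := by
          rw [hB, ← pow_succ]
          congr 1
          rw [hΛ]; ring
        rw [e]
        have := Nat.mul_le_mul_left B hn
        omega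
      have h3 : (B : ℝ) + 1 ≤ (n : ℝ) ^ Λ := by exact_mod_cast h2
      have h4 := Real.log_le_log (by positivity) h3
      rwa [Real.log_pow] at h4
    have hmm : 2.5 * ρ * (Λ * L / 2 + 1) ≤ m := Nat.le_ceil _
    have hroot : ∀ u : ℕ, (s : ℝ) ≤ 3 * u → Real.sqrt (2 * n / u) *
        (Real.log ((B : ℝ) + 1) / 2 + 1) ≤ m := by
      intro u hu
      have hu0 : (0 : ℝ) < u := by linarith
      have h1 : Real.sqrt (2 * n / u) ≤ 2.5 * ρ := by
        rw [Real.sqrt_le_left (by positivity)]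
        have e : (2.5 * ρ) ^ 2 = 6.25 * (n / s) := by
          rw [mul_pow, hρ, Real.sq_sqrt (by positivity)]; norm_num
        rw [e, div_le_iff₀ hu0]
        have e2 : 6.25 * ((n : ℝ) / s) * u = 6.25 * n * (u / s) := by ring
        rw [e2]
        have h2 : (1 : ℝ) / 3 ≤ u / s := by
          rw [div_le_div_iff₀ (by norm_num) (by linarith)]; linarith
        have := mul_le_mul_of_nonneg_left h2 (show (0 : ℝ) ≤ 6.25 * n by positivity)
        linarith
      refine le_trans ?_ hmm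
      refine mul_le_mul h1 (by linarith) ?_ (by positivity)
      have : 0 ≤ Real.log ((B : ℝ) + 1) := Real.log_nonneg (by
        have : (0 : ℝ) ≤ B := Nat.cast_nonneg B
        linarith)
      linarith
    set d := (2 * M - 1) * (t * Nat.log 2 (2 * n + 2)) with hd
    have hM1 : 1 ≤ M := by omega
    -- rare times
    have hdens : ∀ b, S' ≤ b → b ≤ s →
        ∃ i, 4 * i < b ∧ trc (Trav t (pre x i) (x i) x) 0 b ≤ μ := by
      intro b hb1 hb2
      refine dens1 x hl hσ1 ht (by omega) ?_ (hsel b (by omega) hb2)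
      refine lt_of_le_of_lt ?_ hσ2
      have h1 : ((t : ℝ) + 1) * ((b : ℝ) + 1) ≤ (n : ℝ) ^ 4 := by
        have h2 : (t : ℝ) + 1 ≤ n := by
          have : t + 1 ≤ n := by omega
          exact_mod_cast this
        have h3 : (b : ℝ) + 1 ≤ 2 * n := by
          have h4 : (b : ℝ) ≤ n := by exact_mod_cast hb2.trans hsn
          linarith
        have h4 : ((t : ℝ) + 1) * ((b : ℝ) + 1) ≤ n * (2 * n) :=
          mul_le_mul h2 h3 (by positivity) (by linarith)
        refine h4.trans ?_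
        have h5 : (2 : ℝ) * 1 ≤ (n : ℝ) * n :=
          mul_le_mul hn2 (by linarith) (by norm_num) (by linarith)
        have h6 := mul_le_mul_of_nonneg_left h5 (show (0 : ℝ) ≤ (n : ℝ) * n by positivity)
        have e : (n : ℝ) ^ 4 = (n : ℝ) * n * ((n : ℝ) * n) := by ring
        rw [e]; linarith
      have h2 := Real.log_le_log (by positivity) h1
      rw [Real.log_pow] at h2
      push_cast at h2
      linarith
    have hh : ∀ κ, ∃ h ∈ PolZ d, IsInd M t n x κ h ∧ IsInd M t n y κ h :=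
      fun κ => exists_hh hM1 x y κ
    have hfin : ∀ u v : List Bool, u.length = v.length → u.length < S' →
        (∀ z : List Bool, z.length ≤ k' → cnt z u = cnt z v) → u = v :=
      fun u v h1 h2 h3 => fin_exact (by omega) (Nat.le_ceil _) h1 h2 h3
    -- the cost
    have hcost : (d + 2 * m + 2 * μ + 1) + R * (d + 2 * μ + 1) + k' ≤ k := by
      have h1 : (d + 2 * m + 2 * μ + 1) + R * (d + 2 * μ + 1) + k' ≤
          (R + 1) * d + 2 * m + Λ := by
        rw [hΛ]
        have : R * (d + 2 * μ + 1) = R * d + (2 * μ + 1) * R := by ring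
        rw [this]
        have : (R + 1) * d = R * d + d := by ring
        rw [this]
        omega
      have h2 : ((t * Nat.log 2 (2 * n + 2) : ℕ) : ℝ) ≤ 13.1 * w * l * (5 * L) := by
        push_cast
        exact mul_le_mul ht1 (par_log2 hn) (Nat.cast_nonneg _) (by positivity)
      have h3 : ((R + 1 : ℕ) : ℝ) ≤ 3.65 * L := by push_cast; linarith
      have h4 := par_cost (L := L) (w := w) (ρ := ρ) (Y := M0 + z) (lr := l) (Λ := Λ) (m := m)
        (M1 := ((2 * M - 1 : ℕ) : ℝ)) (tl := ((t * Nat.log 2 (2 * n + 2) : ℕ) : ℝ))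
        (R1 := ((R + 1 : ℕ) : ℝ)) hL hwL hρ1 (by linarith) hl1 (Nat.cast_nonneg _) hΛb hmb
        (Nat.cast_nonneg _) hMb (Nat.cast_nonneg _) h2 h3
      have h5 : (((R + 1) * d + 2 * m + Λ : ℕ) : ℝ) ≤ (k : ℝ) := by
        refine le_trans (le_of_eq ?_) (h4.trans hkk)
        rw [hd]; push_cast; ring
      have h6 : (R + 1) * d + 2 * m + Λ ≤ k := by exact_mod_cast h5
      exact h1.trans h6
    rcases Nat.eq_or_lt_of_le hsn with hsn1 | hsn1
    · -- windows as long as the string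
      have hOk : Ok k M n x y n 0 ((n : ℤ) ^ ((2 * μ + 1) * R + k')) := by
        refine Ok_base hk ?_
        have h1 : n ^ ((2 * μ + 1) * R + k') ≤ B * (5 * n) ^ (2 * m) := by
          have h2 : n ^ ((2 * μ + 1) * R + k') ≤ B := Nat.pow_le_pow_right (by omega) (by omega)
          exact h2.trans (Nat.le_mul_of_pos_right _ (by positivity))
        have h2 := lt_of_le_of_lt h1 hBM
        exact_mod_cast h2
      refine rounds (S' := S') (s := s) (k' := k') (by omega) hsn hdens hh hfin R n 0 (by omega)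
        (by omega) hR1 hOk ?_
      omega
    · refine root (S' := S') (s := s) (k' := k') (m := m) (B := B) (R := R) (by omega) hsn1 hS's
        (by omega) hdens hh hfin hk rfl ?_ ?_ hBM hR1 hcost
      · exact hroot s (by linarith)
      · refine hroot (s / 2) ?_
        have h1 : s ≤ 3 * (s / 2) := by omega
        exact_mod_cast h1
  · -- short windows
    rw [not_le] at hS's
    have h1 : (s : ℝ) ≤ 17.5 * z ^ 2 := by
      have : (s : ℝ) ≤ S' := by exact_mod_cast hS's.le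
      linarith
    have h2 : (n : ℝ) ≤ 17.5 * (ρ * z) ^ 2 := by
      have h3 : ρ ^ 2 = n / s := by rw [hρ, Real.sq_sqrt (by positivity)]
      rw [mul_pow, h3]
      have h4 := mul_le_mul_of_nonneg_left h1 (show (0 : ℝ) ≤ n / s by positivity)
      have e : (n : ℝ) / s * s = n := by field_simp
      linarith
    have h3 := short_case (k := k) hn rfl hwL hl1 (by linarith) hz0
      (show z ≤ M0 + z by linarith) h2 hkk
    have h4 := fin_exact (S := n + 1) (k' := k) (by omega) h3 (u := pre x n) (w := pre y n)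
      (by simp) (by simp) hk
    exact eq_of_pre_eq h4 0 (by omega)

end DeckL
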