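import Pool.Agent.DeckL.Loc

/-!
# Pairs of strings with the same deck, near the first and the last difference
-/

namespace DeckL

open DeckA DeckG

/-! ## Cancellation and reversal -/

/-- A common suffix can be cancelled. -/
lemma cnt_cancel {k : ℕ} {a b u : List Bool}
    (h : ∀ z : List Bool, z.length ≤ k → cnt z (a ++ u) = cnt z (b ++ u)) :
    ∀ z : List Bool, z.length ≤ k → cnt z a = cnt z b := by
  have key : ∀ (m : ℕ) (v : List Bool), v.length = m → m ≤ k → cnt v a = cnt v b := by
    intro m
    induction m using Nat.strong_induction_on with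
    | _ m ih =>
      intro v hv hm
      have e := h v (by omega)
      rw [cnt_append, cnt_append, Finset.sum_range_succ, Finset.sum_range_succ] at e
      simp only [List.take_length, List.drop_length, cnt_nil, mul_one] at e
      have e2 : ∑ i ∈ Finset.range v.length, cnt (v.take i) a * cnt (v.drop i) u
          = ∑ i ∈ Finset.range v.length, cnt (v.take i) b * cnt (v.drop i) u := by
        refine Finset.sum_congr rfl fun i hi => ?_
        have hi' := Finset.mem_range.1 hi
        rw [ih i (by omega) (v.take i) (by simp; omega) (by omega)]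
      rw [e2] at e
      exact Nat.add_left_cancel e
  exact fun z hz => key _ z rfl hz

lemma cnt_reverse : ∀ w z : List Bool, cnt z.reverse w.reverse = cnt z w
  | _, [] => by simp
  | [], c :: z => by
    have h1 : cnt (c :: z).reverse [] = 0 := cnt_zero_of_lt _ _ (by simp)
    rw [List.reverse_nil, h1, cnt_cons_nil]
  | d :: w, c :: z => by
    rw [List.reverse_cons, List.reverse_cons, cnt_snoc, cnt_cons_cons, ← List.reverse_cons,
      cnt_reverse w (c :: z), cnt_reverse w z]

lemma nfac_reverse (l : ℕ) (v : List Bool) : nfac l v.reverse = nfac l v := by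
  unfold nfac
  have e : {w : List Bool | w <:+: v.reverse ∧ w.length = l} =
      List.reverse '' {w : List Bool | w <:+: v ∧ w.length = l} := by
    ext w
    simp only [Set.mem_ofPred_eq, Set.mem_image]
    constructor
    · rintro ⟨h1, h2⟩
      refine ⟨w.reverse, ⟨?_, by simpa using h2⟩, List.reverse_reverse w⟩
      rw [← List.reverse_infix, List.reverse_reverse]
      exact h1
    · rintro ⟨w', ⟨h1, h2⟩, rfl⟩
      exact ⟨List.reverse_infix.2 h1, by simpa using h2⟩
  rw [e]
  exact Set.ncard_image_of_injective _ List.reverse_injective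

lemma pre_reverse (x : ℕ → Bool) : ∀ b : ℕ, (pre x b).reverse = (List.range b).map x
  | 0 => rfl
  | b + 1 => by
    have h : pre x (b + 1) = x b :: pre x b := rfl
    rw [h, List.reverse_cons, pre_reverse x b, List.range_succ, List.map_append]
    rfl

lemma drop_take_pre (x : ℕ → Bool) {b i l : ℕ} (h : i + l ≤ b) :
    ((pre x b).reverse.drop i).take l = (win x i l).reverse := by
  unfold win
  rw [pre_reverse, pre_reverse]
  apply List.ext_getElem
  · simp; omega
  · intro j h1 h2
    simp

/-- The words of the two languages. -/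
lemma seldom_eq (x : ℕ → Bool) {l M b : ℕ} :
    seldom l M (pre x b).reverse = (sel l M x b).card := by
  classical
  unfold seldom sel
  rw [List.length_reverse, length_pre]
  congr 1
  apply Finset.filter_congr
  intro i _
  apply and_congr_right
  intro hi
  have e : occ (((pre x b).reverse.drop i).take l) (pre x b).reverse =
      mlt l x (Finset.Ico 0 (b + 1 - l)) i := by
    unfold occ mlt
    rw [List.length_reverse, length_pre, drop_take_pre x hi]
    have e2 : (Finset.range (b + 1)).filter
          (fun j => (win x i l).reverse <+: (pre x b).reverse.drop j) =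
        (Finset.Ico 0 (b + 1 - l)).filter (fun j => win x j l = win x i l) := by
      ext j
      simp only [Finset.mem_filter, Finset.mem_range, Finset.mem_Ico, Nat.zero_le, true_and]
      rw [List.prefix_iff_eq_take, List.length_reverse, length_win]
      by_cases hj : j + l ≤ b
      · rw [drop_take_pre x hj, List.reverse_inj]
        constructor
        · rintro ⟨h1, h2⟩
          exact ⟨by omega, h2.symm⟩
        · rintro ⟨h1, h2⟩
          exact ⟨by omega, h2.symm⟩
      · constructor
        · rintro ⟨h1, h2⟩
          exfalso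
          have h3 := congrArg List.length h2
          simp at h3
          omega
        · rintro ⟨h1, h2⟩
          omega
    rw [e2]
  rw [e]

lemma pre_seq_prefix {a : List Bool} {c : ℕ} (hc : c ≤ a.length) :
    (pre (seqOf a.reverse) c).reverse <+: a := by
  have h1 : pre (seqOf a.reverse) a.length = a.reverse := by
    have := pre_seqOf a.reverse
    rwa [List.length_reverse] at this
  have h2 : pre (seqOf a.reverse) a.length =
      win (seqOf a.reverse) c (a.length - c) ++ pre (seqOf a.reverse) c := by
    rw [← pre_add]; congr 1; omega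
  rw [← List.reverse_suffix, List.reverse_reverse]
  exact ⟨win (seqOf a.reverse) c (a.length - c), by rw [← h2, h1]⟩

lemma short_cost {l0 ρ M0 L θ S : ℝ} (hL : 0.69 ≤ L) (hl : 1 ≤ l0) (hρ : 1 ≤ ρ) (hM : 0 ≤ M0)
    (hθ : 0 < θ) (hθ1 : θ ≤ 1) (hS : 1 ≤ S) :
    75 * (ρ * Real.sqrt S * L) ≤
      5 * 10 ^ 6 * (l0 * ρ * (M0 + Real.sqrt (S * L / θ)) * L ^ 6 / θ) := by
  have hL0 : 0 ≤ L := by linarith
  have hw := w_ge hL hθ hθ1
  have hz : 0.83 * Real.sqrt S ≤ Real.sqrt (S * L / θ) := by
    apply Real.le_sqrt_of_sq_le
    rw [mul_pow, Real.sq_sqrt (by linarith)]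
    have e : S * L / θ = S * (L / θ) := by ring
    rw [e]
    have := mul_le_mul_of_nonneg_left (hL.trans hw) (show 0 ≤ S by linarith)
    norm_num at this ⊢
    linarith
  have hS0 := Real.sqrt_nonneg S
  have h1 : ρ ≤ l0 * ρ := by
    have := mul_le_mul_of_nonneg_right hl (show 0 ≤ ρ by linarith)
    linarith
  have h2 : ρ * (0.83 * Real.sqrt S) ≤ l0 * ρ * (M0 + Real.sqrt (S * L / θ)) :=
    mul_le_mul h1 (by linarith) (by positivity) (by positivity)
  have hL5 : (0.15 : ℝ) ≤ L ^ 5 := by
    have := pow_le_pow_left₀ (by norm_num) hL 5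
    norm_num at this ⊢; linarith
  have h3 : 0.15 * L ≤ L ^ 6 / θ := by
    rw [le_div_iff₀ hθ]
    have h4 := mul_le_mul_of_nonneg_right hL5 hL0
    have h5 := mul_le_mul_of_nonneg_left hθ1 (show 0 ≤ 0.15 * L by positivity)
    have e : L ^ 6 = L ^ 5 * L := by ring
    linarith
  have h4 := mul_le_mul h2 h3 (by positivity) (le_trans (by positivity) h2)
  have e : l0 * ρ * (M0 + Real.sqrt (S * L / θ)) * L ^ 6 / θ =
      l0 * ρ * (M0 + Real.sqrt (S * L / θ)) * (L ^ 6 / θ) := by ring
  rw [e]
  have h5 : 0 ≤ ρ * Real.sqrt S * L := by positivity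
  linarith

/-- **Pairs with the same deck, at the first difference.** -/
theorem pair_prefix {n l S s k M0 : ℕ} {θ : ℝ} (hn : 2 ≤ n) (hl : 1 ≤ l) (hlS : l ≤ S)
    (hSs : S ≤ s) (hsn : s ≤ n) (hθ : 0 < θ) (hθ1 : θ ≤ 1)
    (hkk : 5 * 10 ^ 6 * (l * Real.sqrt (n / s) * (M0 + Real.sqrt (S * Real.log n / θ)) *
      Real.log n ^ 6 / θ) ≤ k)
    {a b u : List Bool} (hlen : a.length ≤ n) (hab : a.length = b.length)
    (hcnt : ∀ z : List Bool, z.length ≤ k → cnt z (u ++ a) = cnt z (u ++ b))
    (hne : a.head? ≠ b.head?) :
    ∃ v, v <+: a ∧ S ≤ v.length ∧ v.length ≤ s ∧ (seldom l M0 v : ℝ) < θ * v.length := by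
  have hcnt' : ∀ z : List Bool, z.length ≤ k → cnt z a.reverse = cnt z b.reverse := by
    refine cnt_cancel (u := u.reverse) ?_
    intro z hz
    rw [← List.reverse_append, ← List.reverse_append]
    have e1 := cnt_reverse (u ++ a) z.reverse
    have e2 := cnt_reverse (u ++ b) z.reverse
    rw [List.reverse_reverse] at e1 e2
    rw [e1, e2]
    exact hcnt _ (by simpa using hz)
  by_contra hcon
  push Not at hcon
  apply hne
  set p := a.length with hp
  set X := seqOf a.reverse with hX
  set Y := seqOf b.reverse with hY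
  have hXa : pre X p = a.reverse := by
    have := pre_seqOf a.reverse
    rwa [List.length_reverse] at this
  have hYb : pre Y p = b.reverse := by
    have := pre_seqOf b.reverse
    rwa [List.length_reverse, ← hab] at this
  have hhead : ∀ c : List Bool, c.length = p → 1 ≤ p → c.head? = some (seqOf c.reverse 0) := by
    intro c hc hp1
    unfold seqOf
    rw [List.reverse_reverse]
    cases c with
    | nil => simp at hc; omega
    | cons x c => rfl
  rcases Nat.eq_zero_or_pos p with hp0 | hp0
  · have h1 : a = [] := List.length_eq_zero_iff.1 (hp.symm.trans hp0)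
    have h2 : b = [] := List.length_eq_zero_iff.1 (hab.symm.trans hp0)
    rw [h1, h2]
  have hL := logn_ge hn
  have hn2 : (2 : ℝ) ≤ n := by exact_mod_cast hn
  have hl1 : (1 : ℝ) ≤ l := by exact_mod_cast hl
  have hS1 : 1 ≤ S := hl.trans hlS
  have hS1' : (1 : ℝ) ≤ S := by exact_mod_cast hS1
  have hs1' : (1 : ℝ) ≤ s := by exact_mod_cast hS1.trans hSs
  have hsn' : (s : ℝ) ≤ n := by exact_mod_cast hsn
  have hρ1 : 1 ≤ Real.sqrt ((n : ℝ) / s) :=
    Real.one_le_sqrt.2 (by rw [le_div_iff₀ (by linarith)]; linarith)
  have key : X 0 = Y 0 := by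
    have hcnt2 : ∀ z : List Bool, z.length ≤ k → cnt z (pre X p) = cnt z (pre Y p) := by
      rw [hXa, hYb]; exact hcnt'
    by_cases hsmall : p + 1 ≤ 2 * S ∧ p + 1 ≤ n
    · -- the string is short
      have h1 : Real.sqrt ((p + 1 : ℕ) : ℝ) ≤ 1.5 * Real.sqrt S := by
        rw [Real.sqrt_le_left (by positivity), mul_pow, Real.sq_sqrt (by positivity)]
        have : ((p + 1 : ℕ) : ℝ) ≤ 2 * S := by exact_mod_cast hsmall.1
        norm_num at this ⊢
        linarith
      have h2 : Real.log ((p + 1 : ℕ) : ℝ) ≤ Real.log n :=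
        Real.log_le_log (by positivity) (by exact_mod_cast hsmall.2)
      have h3 : 0 ≤ Real.log ((p + 1 : ℕ) : ℝ) := Real.log_nonneg (by push_cast; linarith [
        (Nat.cast_nonneg p : (0 : ℝ) ≤ p)])
      have h5 : 50 * Real.sqrt ((p + 1 : ℕ) : ℝ) * Real.log ((p + 1 : ℕ) : ℝ) ≤ k := by
        refine le_trans ?_ ((short_cost hL hl1 hρ1 (Nat.cast_nonneg M0) hθ hθ1 hS1').trans hkk)
        have h6 : Real.sqrt ((p + 1 : ℕ) : ℝ) * Real.log ((p + 1 : ℕ) : ℝ) ≤
            (1.5 * Real.sqrt S) * Real.log n :=
          mul_le_mul h1 h2 h3 (by positivity)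
        have h7 := mul_le_mul_of_nonneg_right hρ1
          (show 0 ≤ Real.sqrt S * Real.log n by positivity)
        linarith
      have h6 := fin_exact (S := p + 1) (k' := k) (by omega) h5 (u := pre X p)
        (w := pre Y p) (by simp) (by simp) hcnt2
      exact eq_of_pre_eq h6 0 hp0
    · -- the string is long
      have hpS : S ≤ p := by omega
      have hp2 : 2 ≤ p := by omega
      refine part_local (n := p) (l := l) (S := S) (s := min s p) (k := k) (M0 := M0) (θ := θ)
        hp2 hl hlS (le_min hSs hpS) (min_le_right _ _) hθ hθ1 X Y hcnt2 ?_ ?_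
      · intro c hc1 hc2
        have hc3 : c ≤ s := hc2.trans (min_le_left _ _)
        have hc4 : c ≤ p := hc2.trans (min_le_right _ _)
        have h2 := hcon (pre X c).reverse (pre_seq_prefix hc4)
          (by rw [List.length_reverse, length_pre]; exact hc1)
          (by rw [List.length_reverse, length_pre]; exact hc3)
        rwa [List.length_reverse, length_pre, seldom_eq] at h2
      · refine le_trans ?_ hkk
        have hp' : (p : ℝ) ≤ n := by exact_mod_cast hlen
        have hp2' : (2 : ℝ) ≤ p := by exact_mod_cast hp2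
        have h1 : Real.sqrt ((p : ℝ) / (min s p : ℕ)) ≤ Real.sqrt (n / s) := by
          apply Real.sqrt_le_sqrt
          rcases le_total s p with h | h
          · rw [min_eq_left h]
            exact div_le_div_of_nonneg_right hp' (by linarith)
          · rw [min_eq_right h]
            have e : (p : ℝ) / p = 1 := by field_simp
            rw [e, le_div_iff₀ (by linarith)]
            linarith
        have h2 : Real.log p ≤ Real.log n := Real.log_le_log (by linarith) hp'
        have h3 : 0 ≤ Real.log p := Real.log_nonneg (by linarith)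
        have h4 : Real.log p ^ 6 ≤ Real.log n ^ 6 := pow_le_pow_left₀ h3 h2 6
        have h5 : Real.sqrt (S * Real.log p / θ) ≤ Real.sqrt (S * Real.log n / θ) := by
          apply Real.sqrt_le_sqrt
          exact div_le_div_of_nonneg_right (mul_le_mul_of_nonneg_left h2 (by linarith)) hθ.le
        have h6 : (l : ℝ) * Real.sqrt ((p : ℝ) / (min s p : ℕ)) *
            (M0 + Real.sqrt (S * Real.log p / θ)) ≤
            l * Real.sqrt (n / s) * (M0 + Real.sqrt (S * Real.log n / θ)) := by
          refine mul_le_mul (mul_le_mul_of_nonneg_left h1 (by linarith)) (by linarith)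
            (by positivity) (by positivity)
        have h7 := mul_le_mul h6 h4 (by positivity) (by positivity)
        have h8 := div_le_div_of_nonneg_right h7 hθ.le
        exact mul_le_mul_of_nonneg_left h8 (by norm_num)
  rw [hhead a rfl hp0, hhead b hab.symm hp0, ← hX, ← hY, key]

/-- **Pairs with the same deck, at the last difference.** -/
theorem pair_suffix {n l S s k M0 : ℕ} {θ : ℝ} (hn : 2 ≤ n) (hl : 1 ≤ l) (hlS : l ≤ S)
    (hSs : S ≤ s) (hsn : s ≤ n) (hθ : 0 < θ) (hθ1 : θ ≤ 1)
    (hkk : 5 * 10 ^ 6 * (l * Real.sqrt (n / s) * (M0 + Real.sqrt (S * Real.log n / θ)) *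
      Real.log n ^ 6 / θ) ≤ k)
    {a b u : List Bool} (hlen : a.length ≤ n) (hab : a.length = b.length)
    (hcnt : ∀ z : List Bool, z.length ≤ k → cnt z (a ++ u) = cnt z (b ++ u))
    (hne : a.getLast? ≠ b.getLast?) :
    ∃ v, v <+: a.reverse ∧ S ≤ v.length ∧ v.length ≤ s ∧
      (seldom l M0 v : ℝ) < θ * v.length :=
  pair_prefix (a := a.reverse) (b := b.reverse) (u := u.reverse)
    hn hl hlS hSs hsn hθ hθ1 hkk (by simpa using hlen) (by simpa using hab) (by
      intro z hz
      rw [← List.reverse_append, ← List.reverse_append]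
      have e1 := cnt_reverse (a ++ u) z.reverse
      have e2 := cnt_reverse (b ++ u) z.reverse
      rw [List.reverse_reverse] at e1 e2
      rw [e1, e2]
      exact hcnt _ (by simpa using hz)) (by simpa using hne)

end DeckL
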