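import Pool.Agent.DeckG.Pol
import Pool.Agent.DeckB.Cheb
import Pool.Agent.DeckB.PolR

/-!
# Integer polynomials in the position
-/

namespace DeckL

open DeckA DeckG

lemma len_memZ : (fun w : List Bool => (w.length : ℤ)) ∈ PolZ 1 := by
  have e : (fun w : List Bool => (w.length : ℤ)) =
      (fun w => (cnt [true] w : ℤ)) + fun w => (cnt [false] w : ℤ) := by
    funext w
    have := DeckB.len_eq w
    simp only [Pi.add_apply]
    exact_mod_cast this
  rw [e]
  exact add_mem (cnt_memZ (by simp)) (cnt_memZ (by simp))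

/-- The product of the squares of the distances of the position to the points of `T`. -/
def Up (T : Finset ℕ) (j : ℕ) : ℤ := ∏ τ ∈ T, ((j : ℤ) - τ) ^ 2

lemma Up_nonneg (T : Finset ℕ) (j : ℕ) : 0 ≤ Up T j := Finset.prod_nonneg fun _ _ => sq_nonneg _

lemma Up_zero {T : Finset ℕ} {j : ℕ} (h : j ∈ T) : Up T j = 0 :=
  Finset.prod_eq_zero h (by simp)

lemma Up_pos {T : Finset ℕ} {j : ℕ} (h : j ∉ T) : 1 ≤ Up T j := by
  have : 0 < Up T j := by
    refine Finset.prod_pos fun τ hτ => ?_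
    have : (j : ℤ) - τ ≠ 0 := by
      intro h0
      have h1 : j = τ := by omega
      exact h (h1 ▸ hτ)
    positivity
  omega

lemma Up_le {T : Finset ℕ} {j n : ℕ} (hj : j ≤ n) (hT : ∀ τ ∈ T, τ ≤ n) :
    Up T j ≤ ((n : ℤ) ^ 2) ^ T.card := by
  unfold Up
  rw [← Finset.prod_const]
  refine Finset.prod_le_prod (fun _ _ => sq_nonneg _) fun τ hτ => ?_
  have h1 := hT τ hτ
  have h2 : |(j : ℤ) - τ| ≤ n := by
    rw [abs_le]
    constructor <;> omega
  exact sq_le_sq' (by linarith [(abs_le.1 h2).1]) (abs_le.1 h2).2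

lemma Up_mem (T : Finset ℕ) : (fun w : List Bool => Up T w.length) ∈ PolZ (2 * T.card) := by
  classical
  induction T using Finset.induction_on with
  | empty =>
    have : (fun w : List Bool => Up ∅ w.length) = 1 := by funext w; simp [Up]
    rw [this]; exact one_memZ _
  | insert a T ha ih =>
    have e : (fun w : List Bool => Up (insert a T) w.length) =
        ((fun w : List Bool => (w.length : ℤ)) - fun _ => (a : ℤ)) ^ 2 *
          fun w => Up T w.length := by
      funext w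
      simp [Up, Finset.prod_insert ha]
    rw [e, Finset.card_insert_of_notMem ha]
    have h1 := pow_memZ (sub_mem len_memZ (const_memZ 1 (a : ℤ))) 2
    exact PolZ_mono (by ring_nf; omega) (mul_memZ h1 ih)

/-! ## Homogenised Chebyshev polynomials -/

/-- The homogenised Chebyshev polynomials. -/
def hc (p q : ℤ) : ℕ → ℤ
  | 0 => 1
  | 1 => p
  | m + 2 => 2 * p * hc p q (m + 1) - q ^ 2 * hc p q m

lemma hc_mem (N u q : ℤ) : ∀ m : ℕ,
    (fun w : List Bool => hc (N + u - 2 * (w.length : ℤ)) q m) ∈ PolZ m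
  | 0 => by
    have : (fun w : List Bool => hc (N + u - 2 * (w.length : ℤ)) q 0) = 1 := by
      funext w; simp [hc]
    rw [this]; exact one_memZ _
  | 1 => by
    have e : (fun w : List Bool => hc (N + u - 2 * (w.length : ℤ)) q 1) =
        (fun _ => N + u) - (2 : ℤ) • fun w : List Bool => (w.length : ℤ) := by
      funext w; simp [hc]
    rw [e]
    exact sub_mem (const_memZ 1 _) (Submodule.smul_mem _ _ len_memZ)
  | m + 2 => by
    have h1 := hc_mem N u q (m + 1)
    have h2 := hc_mem N u q m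
    have e : (fun w : List Bool => hc (N + u - 2 * (w.length : ℤ)) q (m + 2)) =
        (2 : ℤ) • ((fun w : List Bool => hc (N + u - 2 * (w.length : ℤ)) q 1) *
          fun w : List Bool => hc (N + u - 2 * (w.length : ℤ)) q (m + 1)) -
        (q ^ 2) • fun w : List Bool => hc (N + u - 2 * (w.length : ℤ)) q m := by
      funext w
      simp [hc]
      ring
    rw [e]
    have h3 := mul_memZ (hc_mem N u q 1) h1
    exact sub_mem (Submodule.smul_mem _ _ (PolZ_mono (by omega) h3))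
      (Submodule.smul_mem _ _ (PolZ_mono (by omega) h2))

lemma hc_eq {p q : ℤ} (hq : q ≠ 0) : ∀ m : ℕ,
    (hc p q m : ℝ) = (q : ℝ) ^ m * (Polynomial.Chebyshev.T ℝ (m : ℤ)).eval ((p : ℝ) / q)
  | 0 => by simp [hc]
  | 1 => by
    have : (q : ℝ) ≠ 0 := by exact_mod_cast hq
    simp [hc]
    field_simp
  | m + 2 => by
    have h1 := hc_eq (p := p) hq (m + 1)
    have h2 := hc_eq (p := p) hq m
    have hq' : (q : ℝ) ≠ 0 := by exact_mod_cast hq
    have e : ((m + 2 : ℕ) : ℤ) = (m : ℤ) + 2 := by push_cast; ring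
    have e' : ((m + 1 : ℕ) : ℤ) = (m : ℤ) + 1 := by push_cast; ring
    rw [e'] at h1
    rw [e, Polynomial.Chebyshev.T_add_two]
    simp only [hc, Polynomial.eval_sub, Polynomial.eval_mul, Polynomial.eval_X,
      Polynomial.eval_ofNat]
    push_cast
    rw [h1, h2]
    field_simp
    ring

lemma hc_small {p q : ℤ} (hq : 0 < q) (hp : |p| ≤ q) (m : ℕ) : |hc p q m| ≤ q ^ m := by
  have hq' : (0 : ℝ) < q := by exact_mod_cast hq
  have h1 := hc_eq (p := p) hq.ne' m
  have h2 : |(p : ℝ) / q| ≤ 1 := by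
    rw [abs_div, abs_of_pos hq', div_le_one hq']
    exact_mod_cast hp
  have h3 := Polynomial.Chebyshev.abs_eval_T_real_le_one (m : ℤ) h2
  have h4 : |(hc p q m : ℝ)| ≤ (q : ℝ) ^ m := by
    rw [h1, abs_mul, abs_of_pos (by positivity)]
    exact mul_le_of_le_one_right (by positivity) h3
  exact_mod_cast h4

lemma hc_large {p q : ℤ} (hq : 0 < q) {h : ℝ} (h0 : 0 ≤ h) (h1 : h ≤ 1)
    (hp : (1 + 2 * h) * q ≤ p) (m : ℕ) :
    (q : ℝ) ^ m * (Real.exp (m * Real.sqrt h) / 2) ≤ hc p q m := by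
  have hq' : (0 : ℝ) < q := by exact_mod_cast hq
  rw [hc_eq (p := p) hq.ne' m]
  refine mul_le_mul_of_nonneg_left ((DeckB.T_ge h0 h1 m).trans ?_) (by positivity)
  have h2 : 1 + 2 * h ≤ (p : ℝ) / q := by rw [le_div_iff₀ hq']; exact hp
  have h3 := DeckB.abs_T_le (h := ((p : ℝ) / q - 1) / 2) (y := 1 + 2 * h) (by linarith) m
    (by linarith) (by linarith)
  have e : 1 + 2 * (((p : ℝ) / q - 1) / 2) = (p : ℝ) / q := by ring
  rw [e] at h3
  exact (le_abs_self _).trans h3

lemma hc_le (p q : ℤ) (hq : 0 ≤ q) : ∀ m : ℕ, |hc p q m| ≤ (2 * |p| + q) ^ m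
  | 0 => by simp [hc]
  | 1 => by
    simp only [hc, pow_one]
    have := abs_nonneg p
    linarith
  | m + 2 => by
    have h1 := hc_le p q hq (m + 1)
    have h2 := hc_le p q hq m
    have hp := abs_nonneg p
    have h3 : |hc p q (m + 2)| ≤ 2 * |p| * |hc p q (m + 1)| + q ^ 2 * |hc p q m| := by
      simp only [hc]
      refine (abs_sub _ _).trans ?_
      rw [abs_mul, abs_mul, abs_mul, abs_two, abs_of_nonneg (by positivity : 0 ≤ q ^ 2)]
    have hX : 0 ≤ (2 * |p| + q) ^ m := by positivity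
    calc |hc p q (m + 2)| ≤ 2 * |p| * |hc p q (m + 1)| + q ^ 2 * |hc p q m| := h3
      _ ≤ 2 * |p| * (2 * |p| + q) ^ (m + 1) + q ^ 2 * (2 * |p| + q) ^ m :=
          add_le_add (mul_le_mul_of_nonneg_left h1 (by positivity))
            (mul_le_mul_of_nonneg_left h2 (by positivity))
      _ = (2 * |p| * (2 * |p| + q) + q ^ 2) * (2 * |p| + q) ^ m := by ring
      _ ≤ (2 * |p| + q) ^ 2 * (2 * |p| + q) ^ m := by
          refine mul_le_mul_of_nonneg_right ?_ hX
          nlinarith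
      _ = (2 * |p| + q) ^ (m + 2) := by ring

/-- **The localizer.** For `u < n` there is a polynomial `W` of degree `2 m` in the position with
`0 ≤ W ≤ (5 n)^(2 m)` on `[0, n]`, `W ≤ Q` on `[u, n]` and `W > B Q` on `[0, u / 2]`, where
`Q > 0`. -/
theorem exists_loc {n u m B : ℕ} (hu : 1 ≤ u) (hun : u < n)
    (hm : Real.sqrt (2 * n / u) * (Real.log (B + 1) / 2 + 1) ≤ m) :
    ∃ (W : ℕ → ℤ) (Q : ℤ), (fun w : List Bool => W w.length) ∈ PolZ (2 * m) ∧ 0 < Q ∧
      (∀ j ≤ n, 0 ≤ W j ∧ W j ≤ (5 * (n : ℤ)) ^ (2 * m)) ∧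
      (∀ j, u ≤ j → j ≤ n → W j ≤ Q) ∧ (∀ j, 2 * j ≤ u → B * Q < W j) := by
  have hun' : (0 : ℤ) < n - u := by omega
  refine ⟨fun j => hc ((n : ℤ) + u - 2 * j) (n - u) m ^ 2, ((n : ℤ) - u) ^ (2 * m), ?_, ?_, ?_, ?_,
    ?_⟩
  · have h := pow_memZ (hc_mem (n : ℤ) u (n - u) m) 2
    exact h
  · positivity
  · intro j hj
    refine ⟨sq_nonneg _, ?_⟩
    have h1 := hc_le ((n : ℤ) + u - 2 * j) (n - u) hun'.le m
    have h2 : 2 * |(n : ℤ) + u - 2 * j| + (n - u) ≤ 5 * n := by
      have h3 : |(n : ℤ) + u - 2 * j| ≤ 2 * n := by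
        rw [abs_le]; constructor <;> omega
      omega
    have h4 : |hc ((n : ℤ) + u - 2 * j) (n - u) m| ≤ (5 * n) ^ m :=
      h1.trans (pow_le_pow_left₀ (by positivity) h2 m)
    calc hc ((n : ℤ) + u - 2 * j) (n - u) m ^ 2
        = |hc ((n : ℤ) + u - 2 * j) (n - u) m| ^ 2 := (sq_abs _).symm
      _ ≤ ((5 * (n : ℤ)) ^ m) ^ 2 := pow_le_pow_left₀ (abs_nonneg _) h4 2
      _ = (5 * (n : ℤ)) ^ (2 * m) := by rw [← pow_mul, mul_comm m 2]
  · intro j hj hjn
    have h1 : |(n : ℤ) + u - 2 * j| ≤ n - u := by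
      rw [abs_le]; constructor <;> omega
    have h2 := hc_small hun' h1 m
    calc hc ((n : ℤ) + u - 2 * j) (n - u) m ^ 2
        = |hc ((n : ℤ) + u - 2 * j) (n - u) m| ^ 2 := (sq_abs _).symm
      _ ≤ (((n : ℤ) - u) ^ m) ^ 2 := pow_le_pow_left₀ (abs_nonneg _) h2 2
      _ = ((n : ℤ) - u) ^ (2 * m) := by rw [← pow_mul, mul_comm m 2]
  · intro j hj
    have hn0 : (0 : ℝ) < n := by exact_mod_cast (by omega : 0 < n)
    have hu0 : (0 : ℝ) < u := by exact_mod_cast hu
    have hunr : (u : ℝ) < n := by exact_mod_cast hun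
    set h : ℝ := u / (2 * n) with hh
    have h0 : 0 ≤ h := by positivity
    have h1 : h ≤ 1 := by rw [hh, div_le_one (by positivity)]; linarith
    have hp : (1 + 2 * h) * (((n : ℤ) - u : ℤ) : ℝ) ≤ (((n : ℤ) + u - 2 * j : ℤ) : ℝ) := by
      push_cast
      have e1 : 2 * h * n = u := by rw [hh]; field_simp
      have e2 : (2 * j : ℝ) ≤ u := by exact_mod_cast hj
      have e3 : 0 ≤ 2 * h * u := by positivity
      linarith
    have h2 := hc_large hun' h0 h1 hp m
    have h3 : Real.log (B + 1) / 2 + 1 ≤ m * Real.sqrt h := by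
      have e2 : Real.sqrt (2 * n / u) * Real.sqrt h = 1 := by
        rw [← Real.sqrt_mul (by positivity), hh, div_mul_div_comm,
          mul_comm (2 * (n : ℝ)) (u : ℝ), div_self (by positivity), Real.sqrt_one]
      have e3 := mul_le_mul_of_nonneg_right hm (Real.sqrt_nonneg h)
      have e4 : Real.sqrt (2 * n / u) * (Real.log (B + 1) / 2 + 1) * Real.sqrt h =
          Real.log (B + 1) / 2 + 1 := by
        rw [mul_right_comm, e2, one_mul]
      linarith
    have hB0 : (0 : ℝ) < (B : ℝ) + 1 := by positivity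
    have h4 : Real.sqrt ((B : ℝ) + 1) ≤ Real.exp (m * Real.sqrt h) / 2 := by
      have e1 : Real.exp (Real.log (B + 1) / 2 + 1) ≤ Real.exp (m * Real.sqrt h) :=
        Real.exp_le_exp.2 h3
      have e2 : Real.exp (Real.log (B + 1) / 2) = Real.sqrt ((B : ℝ) + 1) := by
        rw [Real.exp_half, Real.exp_log hB0]
      have e3 : (2 : ℝ) ≤ Real.exp 1 := by
        have := Real.add_one_le_exp 1; linarith
      rw [Real.exp_add, e2] at e1
      have e4 : Real.sqrt ((B : ℝ) + 1) * 2 ≤ Real.sqrt ((B : ℝ) + 1) * Real.exp 1 :=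
        mul_le_mul_of_nonneg_left e3 (Real.sqrt_nonneg _)
      linarith
    have hq' : (0 : ℝ) < (((n : ℤ) - u : ℤ) : ℝ) := by exact_mod_cast hun'
    have h5 : ((((n : ℤ) - u : ℤ) : ℝ) ^ m * Real.sqrt ((B : ℝ) + 1)) ^ 2 ≤
        (hc ((n : ℤ) + u - 2 * j) (n - u) m : ℝ) ^ 2 := by
      refine pow_le_pow_left₀ (by positivity) (le_trans ?_ h2) 2
      exact mul_le_mul_of_nonneg_left h4 (by positivity)
    rw [mul_pow, Real.sq_sqrt hB0.le, ← pow_mul, mul_comm m 2] at h5
    have h6 : (B : ℝ) * (((n : ℤ) - u : ℤ) : ℝ) ^ (2 * m) <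
        (hc ((n : ℤ) + u - 2 * j) (n - u) m : ℝ) ^ 2 := by
      have : 0 < (((n : ℤ) - u : ℤ) : ℝ) ^ (2 * m) := by positivity
      nlinarith
    exact_mod_cast h6

end DeckL
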