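import Pool.Agent.DeckG.Core
import Pool.Agent.DeckL.Pos

/-!
# Evaluation at the first traversal of a rare edge
-/

namespace DeckL

open DeckA DeckG

/-- The integer function `g` with values in `[0, Γ]` is represented by `G`, modulo `2 ^ M`, on the
words read by `x` until the time `n`. -/
def Rep (M n : ℕ) (x : ℕ → Bool) (G : List Bool → ℤ) (g : ℕ → ℤ) (Γ : ℤ) : Prop :=
  ∀ i ≤ n, 0 ≤ g i ∧ g i ≤ Γ ∧ ((G (pre x i) : ℤ) : ZMod (2 ^ M)) = ((g i : ℤ) : ZMod (2 ^ M))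

/-- The values at the time `b` of represented functions agree. -/
def Ok (k M n : ℕ) (x y : ℕ → Bool) (b D : ℕ) (Γ : ℤ) : Prop :=
  ∀ E, E + D ≤ k → ∀ G ∈ PolZ E, ∀ gx gy : ℕ → ℤ, Rep M n x G gx Γ → Rep M n y G gy Γ →
    gx b = gy b

lemma intCast_inj {M : ℕ} {a b : ℤ} (ha : 0 ≤ a) (ha' : a < 2 ^ M) (hb : 0 ≤ b) (hb' : b < 2 ^ M)
    (h : ((a : ℤ) : ZMod (2 ^ M)) = ((b : ℤ) : ZMod (2 ^ M))) : a = b := by
  have h1 := (ZMod.intCast_eq_intCast_iff' a b (2 ^ M)).1 h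
  push_cast at h1
  rwa [Int.emod_eq_of_lt ha ha', Int.emod_eq_of_lt hb hb'] at h1

lemma Ok_base {k M n : ℕ} {x y : ℕ → Bool} {Γ : ℤ}
    (hk : ∀ z : List Bool, z.length ≤ k → cnt z (pre x n) = cnt z (pre y n))
    (hΓ : Γ < 2 ^ M) : Ok k M n x y n 0 Γ := by
  intro E hE G hG gx gy hx hy
  obtain ⟨h1, h2, h3⟩ := hx n le_rfl
  obtain ⟨h4, h5, h6⟩ := hy n le_rfl
  refine intCast_inj h1 (lt_of_le_of_lt h2 hΓ) h4 (lt_of_le_of_lt h5 hΓ) ?_
  rw [← h3, ← h6, evalZ_eq hk (PolZ_mono (by omega) hG)]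

open Classical in
/-- The sum of `f` over the traversals before the time `j`. -/
noncomputable def Sm (τ : ℕ → Prop) (f : ℕ → ℤ) (j : ℕ) : ℤ :=
  ∑ i ∈ Finset.range j, if τ i then f i else 0

lemma J_rep {M t n : ℕ} {x : ℕ → Bool} {κ : List Bool} {h : List Bool → ℤ} (c : Bool)
    (hh : IsInd M t n x κ h) {V : ℕ → ℤ} {G : List Bool → ℤ} {g : ℕ → ℤ} {Γ Vm : ℤ}
    (hG : Rep M n x G g Γ) (hV : ∀ j ≤ n, 0 ≤ V j ∧ V j ≤ Vm) (hVm : 0 ≤ Vm) (hΓ : 0 ≤ Γ) :
    Rep M n x (J c (h * ((fun w : List Bool => V w.length) * G)))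
      (Sm (Trav t κ c x) (fun i => V i * g i)) (n * (Vm * Γ)) := by
  classical
  intro j hj
  have hterm : ∀ i ≤ n, 0 ≤ V i * g i ∧ V i * g i ≤ Vm * Γ := by
    intro i hi
    obtain ⟨h1, h2, -⟩ := hG i hi
    obtain ⟨h3, h4⟩ := hV i hi
    exact ⟨mul_nonneg h3 h1, mul_le_mul h4 h2 h1 hVm⟩
  refine ⟨?_, ?_, ?_⟩
  · unfold Sm
    refine Finset.sum_nonneg fun i hi => ?_
    have := Finset.mem_range.1 hi
    split_ifs
    · exact (hterm i (by omega)).1
    · exact le_rfl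
  · unfold Sm
    have h1 : ∑ i ∈ Finset.range j, (if Trav t κ c x i then V i * g i else 0) ≤
        ∑ _i ∈ Finset.range j, Vm * Γ := by
      refine Finset.sum_le_sum fun i hi => ?_
      have := Finset.mem_range.1 hi
      split_ifs
      · exact (hterm i (by omega)).2
      · positivity
    refine h1.trans ?_
    rw [Finset.sum_const, Finset.card_range, nsmul_eq_mul]
    exact mul_le_mul_of_nonneg_right (by exact_mod_cast hj) (by positivity)
  · have h1 := Ed_eval hh c ((fun w : List Bool => V w.length) * G) hj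
    unfold Ed at h1
    rw [h1]
    unfold Sm Eop
    push_cast
    refine Finset.sum_congr rfl fun i hi => ?_
    have := Finset.mem_range.1 hi
    split_ifs
    · rw [Pi.mul_apply]
      push_cast
      rw [(hG i (by omega)).2.2, length_pre]
    · rfl

lemma Sm_split {τ : ℕ → Prop} {f : ℕ → ℤ} {z b b' : ℕ} (hz : b' < z) (hzb : z ≤ b)
    (h0 : ∀ i < z, i ≠ b' → τ i → f i = 0) {F : ℕ → ℤ}
    (hF : ∀ i, z ≤ i → i < b → 0 ≤ f i ∧ f i ≤ F i) :
    ∃ R : ℤ, 0 ≤ R ∧ R ≤ ∑ i ∈ Finset.Ico z b, F i ∧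
      ((τ b' → Sm τ f b = f b' + R) ∧ (¬ τ b' → Sm τ f b = R)) := by
  classical
  refine ⟨∑ i ∈ Finset.Ico z b, if τ i then f i else 0, ?_, ?_, ?_⟩
  · refine Finset.sum_nonneg fun i hi => ?_
    have := Finset.mem_Ico.1 hi
    split_ifs
    · exact (hF i this.1 this.2).1
    · exact le_rfl
  · refine Finset.sum_le_sum fun i hi => ?_
    have := Finset.mem_Ico.1 hi
    have h1 := hF i this.1 this.2
    split_ifs
    · exact h1.2
    · exact h1.1.trans h1.2
  · have e : Sm τ f b = ∑ i ∈ Finset.range z, (if τ i then f i else 0) +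
        ∑ i ∈ Finset.Ico z b, (if τ i then f i else 0) := by
      unfold Sm
      rw [Finset.range_eq_Ico, Finset.range_eq_Ico,
        Finset.sum_Ico_consecutive _ (Nat.zero_le z) hzb]
    have e2 : ∑ i ∈ Finset.range z, (if τ i then f i else 0) = if τ b' then f b' else 0 := by
      rw [Finset.sum_eq_single b']
      · intro i hi hne
        split_ifs with h
        · exact h0 i (Finset.mem_range.1 hi) hne h
        · rfl
      · intro h; exact absurd (Finset.mem_range.2 hz) h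
    rw [e, e2]
    constructor
    · intro h; rw [if_pos h]
    · intro h; rw [if_neg h, zero_add]

/-- **The step.** -/
theorem step {k M t n d e μ b D z1 z2 b' : ℕ} {x y : ℕ → Bool} {Γ Γ' Wm : ℤ} {κ : List Bool}
    {h : List Bool → ℤ} {c : Bool} {Wa Wb : ℕ → ℤ} {T : Finset ℕ}
    (hOk : Ok k M n x y b D Γ) (hbn : b ≤ n)
    (hd : h ∈ PolZ d) (hx : IsInd M t n x κ h) (hy : IsInd M t n y κ h)
    (hT : ∀ i, i ∈ T ↔ i < z2 ∧ Trav t κ c x i) (hTμ : T.card ≤ μ)
    (hb' : Trav t κ c x b') (hb'z : b' < z1) (hz : z1 ≤ z2) (hzb : z2 ≤ b)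
    (hWa : (fun w : List Bool => Wa w.length) ∈ PolZ e)
    (hWb : (fun w : List Bool => Wb w.length) ∈ PolZ e)
    (h0a : ∀ j ≤ n, 0 ≤ Wa j ∧ Wa j ≤ Wm) (h0b : ∀ j ≤ n, 0 ≤ Wb j ∧ Wb j ≤ Wm)
    (hWm : 0 ≤ Wm)
    (ha : ∀ i < z1, ∑ j ∈ Finset.Ico z2 b, Wa j * ((n : ℤ) ^ 2) ^ μ < Wa i)
    (hbb : ∑ j ∈ Finset.Ico z1 b, Wb j * ((n : ℤ) ^ 2) ^ μ * Γ' < Wb b')
    (hΓ' : 1 ≤ Γ') (hΓ : n * (Wm * ((n : ℤ) ^ 2) ^ μ * Γ') ≤ Γ)
    (hcost : D + d + e + 2 * μ + 1 ≤ k) :
    Trav t κ c y b' ∧ Ok k M n x y b' (D + d + e + 2 * μ + 1) Γ' := by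
  classical
  have hn : 1 ≤ n := by omega
  have hnr : (1 : ℤ) ≤ (n : ℤ) ^ 2 := by
    have : (1 : ℤ) ≤ n := by exact_mod_cast hn
    nlinarith
  set P : ℤ := ((n : ℤ) ^ 2) ^ μ with hP
  have hP1 : 1 ≤ P := one_le_pow₀ hnr
  have hTn : ∀ τ ∈ T, τ ≤ n := fun τ hτ => by have := (hT τ).1 hτ; omega
  have hUle : ∀ T' ⊆ T, ∀ j ≤ n, 0 ≤ Up T' j ∧ Up T' j ≤ P := by
    intro T' hT' j hj
    refine ⟨Up_nonneg _ _, (Up_le hj fun τ hτ => hTn τ (hT' hτ)).trans ?_⟩
    exact pow_le_pow_right₀ hnr ((Finset.card_le_card hT').trans hTμ)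
  have hb'T : b' ∈ T := (hT b').2 ⟨by omega, hb'⟩
  -- the weighted functions
  have hV : ∀ (W : ℕ → ℤ), (∀ j ≤ n, 0 ≤ W j ∧ W j ≤ Wm) → ∀ T' ⊆ T, ∀ j ≤ n,
      0 ≤ W j * Up T' j ∧ W j * Up T' j ≤ Wm * P := by
    intro W hW T' hT' j hj
    obtain ⟨h1, h2⟩ := hW j hj
    obtain ⟨h3, h4⟩ := hUle T' hT' j hj
    exact ⟨mul_nonneg h1 h3, mul_le_mul h2 h4 h3 hWm⟩
  have hVmem : ∀ (W : ℕ → ℤ), (fun w : List Bool => W w.length) ∈ PolZ e → ∀ T' ⊆ T,
      (fun w : List Bool => W w.length * Up T' w.length) ∈ PolZ (e + 2 * μ) := by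
    intro W hW T' hT'
    have h1 := mul_memZ hW (Up_mem T')
    refine PolZ_mono ?_ h1
    have := (Finset.card_le_card hT').trans hTμ
    omega
  have hWP : 0 ≤ Wm * P := by positivity
  -- (a) the traversals of `y` before `z1` are among those of `x`
  have hya : ∀ i < z1, Trav t κ c y i → i ∈ T := by
    intro i hi hti
    by_contra hiT
    have r1 := J_rep c hx (V := fun j => Wa j * Up T j) (G := 1) (g := fun _ => 1)
      (Γ := 1) (Vm := Wm * P) (fun _ _ => ⟨zero_le_one, le_rfl, by simp⟩)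
      (hV Wa h0a T (Finset.Subset.refl T)) hWP zero_le_one
    have r2 := J_rep c hy (V := fun j => Wa j * Up T j) (G := 1) (g := fun _ => 1)
      (Γ := 1) (Vm := Wm * P) (fun _ _ => ⟨zero_le_one, le_rfl, by simp⟩)
      (hV Wa h0a T (Finset.Subset.refl T)) hWP zero_le_one
    have hmem : J c (h * ((fun w : List Bool => Wa w.length * Up T w.length) * 1)) ∈
        PolZ (d + (e + 2 * μ + 0) + 1) :=
      J_mem c (mul_memZ hd (mul_memZ (hVmem Wa hWa T (Finset.Subset.refl T)) (one_memZ 0)))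
    have hΓ1 : (n : ℤ) * (Wm * P * 1) ≤ Γ := by
      refine le_trans ?_ hΓ
      refine mul_le_mul_of_nonneg_left ?_ (by positivity)
      exact mul_le_mul_of_nonneg_left hΓ' hWP
    have heq := hOk _ (by omega) _ hmem _ _
      (fun i hi => ⟨(r1 i hi).1, (r1 i hi).2.1.trans hΓ1, (r1 i hi).2.2⟩)
      (fun i hi => ⟨(r2 i hi).1, (r2 i hi).2.1.trans hΓ1, (r2 i hi).2.2⟩)
    -- the value for `x`
    have hxv : Sm (Trav t κ c x) (fun i => Wa i * Up T i * 1) b ≤
        ∑ j ∈ Finset.Ico z2 b, Wa j * P := by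
      have e1 : Sm (Trav t κ c x) (fun i => Wa i * Up T i * 1) b =
          ∑ j ∈ Finset.range z2, (if Trav t κ c x j then Wa j * Up T j * 1 else 0) +
          ∑ j ∈ Finset.Ico z2 b, (if Trav t κ c x j then Wa j * Up T j * 1 else 0) := by
        unfold Sm
        rw [Finset.range_eq_Ico, Finset.range_eq_Ico,
          Finset.sum_Ico_consecutive _ (Nat.zero_le z2) hzb]
      have e2 : ∑ j ∈ Finset.range z2, (if Trav t κ c x j then Wa j * Up T j * 1 else 0) = 0 := by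
        refine Finset.sum_eq_zero fun j hj => ?_
        split_ifs with hj2
        · rw [Up_zero ((hT j).2 ⟨Finset.mem_range.1 hj, hj2⟩)]; ring
        · rfl
      rw [e1, e2, zero_add]
      refine Finset.sum_le_sum fun j hj => ?_
      have hj' := Finset.mem_Ico.1 hj
      obtain ⟨h1, h2⟩ := h0a j (by omega)
      obtain ⟨h3, h4⟩ := hUle T (Finset.Subset.refl T) j (by omega)
      split_ifs
      · rw [mul_one]
        exact mul_le_mul_of_nonneg_left h4 h1
      · positivity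
    have hyv : Wa i ≤ Sm (Trav t κ c y) (fun i => Wa i * Up T i * 1) b := by
      have h1 : (if Trav t κ c y i then Wa i * Up T i * 1 else 0) ≤
          Sm (Trav t κ c y) (fun i => Wa i * Up T i * 1) b := by
        unfold Sm
        refine Finset.single_le_sum (f := fun j => if Trav t κ c y j then Wa j * Up T j * 1 else 0)
          (fun j hj => ?_) (Finset.mem_range.2 (by omega))
        have := Finset.mem_range.1 hj
        split_ifs
        · rw [mul_one]; exact (hV Wa h0a T (Finset.Subset.refl T) j (by omega)).1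
        · exact le_rfl
      rw [if_pos hti, mul_one] at h1
      refine le_trans ?_ h1
      have h2 := (h0a i (by omega)).1
      have h3 := Up_pos hiT
      nlinarith
    have h5 := ha i hi
    have h6 : Sm (Trav t κ c x) (fun i => Wa i * Up T i * 1) b =
        Sm (Trav t κ c y) (fun i => Wa i * Up T i * 1) b := heq
    linarith
  -- (b) isolating `b'`
  set T' := T.erase b' with hT'
  have hT'T : T' ⊆ T := Finset.erase_subset _ _
  have hU1 : 1 ≤ Up T' b' := Up_pos (Finset.notMem_erase b' T)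
  have key : ∀ E, E + (D + d + e + 2 * μ + 1) ≤ k → ∀ G ∈ PolZ E, ∀ gx gy : ℕ → ℤ,
      Rep M n x G gx Γ' → Rep M n y G gy Γ' →
      (Trav t κ c y b' → gx b' = gy b') ∧ (¬ Trav t κ c y b' → gx b' = 0) := by
    intro E hE G hG gx gy hgx hgy
    have r1 := J_rep c hx (V := fun j => Wb j * Up T' j) (Vm := Wm * P) hgx
      (hV Wb h0b T' hT'T) hWP (by linarith)
    have r2 := J_rep c hy (V := fun j => Wb j * Up T' j) (Vm := Wm * P) hgy
      (hV Wb h0b T' hT'T) hWP (by linarith)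
    have hmem : J c (h * ((fun w : List Bool => Wb w.length * Up T' w.length) * G)) ∈
        PolZ (d + (e + 2 * μ + E) + 1) :=
      J_mem c (mul_memZ hd (mul_memZ (hVmem Wb hWb T' hT'T) hG))
    have heq := hOk _ (by omega) _ hmem _ _
      (fun i hi => ⟨(r1 i hi).1, (r1 i hi).2.1.trans hΓ, (r1 i hi).2.2⟩)
      (fun i hi => ⟨(r2 i hi).1, (r2 i hi).2.1.trans hΓ, (r2 i hi).2.2⟩)
    have hbd : ∀ g : ℕ → ℤ, (∀ i ≤ n, 0 ≤ g i ∧ g i ≤ Γ') → ∀ i, z1 ≤ i → i < b →
        0 ≤ Wb i * Up T' i * g i ∧ Wb i * Up T' i * g i ≤ Wb i * P * Γ' := by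
      intro g hg i h1 h2
      obtain ⟨h3, h4⟩ := hg i (by omega)
      obtain ⟨h5, h6⟩ := h0b i (by omega)
      obtain ⟨h7, h8⟩ := hUle T' hT'T i (by omega)
      refine ⟨by positivity, ?_⟩
      exact mul_le_mul (mul_le_mul_of_nonneg_left h8 h5) h4 h3 (by positivity)
    obtain ⟨Rx, hRx0, hRx1, hRx2, -⟩ := Sm_split (τ := Trav t κ c x)
      (f := fun i => Wb i * Up T' i * gx i) (z := z1) (b := b) (b' := b') hb'z (by omega)
      (fun i h1 h2 h3 => by
        show Wb i * Up T' i * gx i = 0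
        rw [Up_zero (Finset.mem_erase.2 ⟨h2, (hT i).2 ⟨by omega, h3⟩⟩)]; ring)
      (F := fun i => Wb i * P * Γ') (hbd gx fun i hi => ⟨(hgx i hi).1, (hgx i hi).2.1⟩)
    obtain ⟨Ry, hRy0, hRy1, hRy2, hRy3⟩ := Sm_split (τ := Trav t κ c y)
      (f := fun i => Wb i * Up T' i * gy i) (z := z1) (b := b) (b' := b') hb'z (by omega)
      (fun i h1 h2 h3 => by
        show Wb i * Up T' i * gy i = 0
        rw [Up_zero (Finset.mem_erase.2 ⟨h2, hya i h1 h3⟩)]; ring)
      (F := fun i => Wb i * P * Γ') (hbd gy fun i hi => ⟨(hgy i hi).1, (hgy i hi).2.1⟩)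
    have hWb' : Wb b' ≤ Wb b' * Up T' b' := by
      have := (h0b b' (by omega)).1
      nlinarith
    have hgx0 := (hgx b' (by omega)).1
    have hgy0 := (hgy b' (by omega)).1
    have small : ∀ δ : ℤ, Wb b' * Up T' b' * δ = Ry - Rx → δ = 0 := by
      intro δ hδ
      by_contra hne
      have h1 : 1 ≤ |δ| := Int.one_le_abs hne
      have h2 : |Wb b' * Up T' b' * δ| < Wb b' := by
        rw [hδ, abs_lt]
        constructor <;> linarith
      have h3 : 0 ≤ Wb b' * Up T' b' := mul_nonneg (h0b b' (by omega)).1 (Up_nonneg _ _)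
      rw [abs_mul, abs_of_nonneg h3] at h2
      nlinarith
    constructor
    · intro hyb
      have e1 := hRx2 hb'
      have e2 := hRy2 hyb
      have e3 : Wb b' * Up T' b' * (gx b' - gy b') = Ry - Rx := by
        have := e1.symm.trans (heq.trans e2)
        linarith
      have := small _ e3
      linarith
    · intro hyb
      have e1 := hRx2 hb'
      have e2 := hRy3 hyb
      have e3 : Wb b' * Up T' b' * gx b' = Ry - Rx := by
        have := e1.symm.trans (heq.trans e2)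
        linarith
      exact small _ e3
  have hyb : Trav t κ c y b' := by
    by_contra hyb
    have := (key 0 (by omega) 1 (one_memZ 0) (fun _ => 1) (fun _ => 1)
      (fun _ _ => ⟨zero_le_one, hΓ', by simp⟩) (fun _ _ => ⟨zero_le_one, hΓ', by simp⟩)).2 hyb
    exact one_ne_zero this
  exact ⟨hyb, fun E hE G hG gx gy hgx hgy => (key E hE G hG gx gy hgx hgy).1 hyb⟩

end DeckL
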