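import Pool.Agent.DeckG.Main
import Pool.Agent.DeckL.Step

/-!
# The rounds
-/

namespace DeckL

open DeckA DeckG

section

variable {k M t n d μ k' S' s : ℕ} {x y : ℕ → Bool}

lemma rep_cnt {Γ : ℤ} (hn : 1 ≤ n) (x : ℕ → Bool) {v : List Bool} (hv : v.length ≤ k')
    (hΓ : (n : ℤ) ^ k' ≤ Γ) :
    Rep M n x (fun w => (cnt v w : ℤ)) (fun i => (cnt v (pre x i) : ℤ)) Γ := by
  intro i hi
  refine ⟨by positivity, ?_, rfl⟩
  have h1 := cnt_le_pow (pre x i) v
  rw [length_pre] at h1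
  have h2 : cnt v (pre x i) ≤ n ^ k' :=
    h1.trans ((Nat.pow_le_pow_left hi _).trans (Nat.pow_le_pow_right hn hv))
  show ((cnt v (pre x i) : ℕ) : ℤ) ≤ Γ
  exact le_trans (by exact_mod_cast h2) hΓ

lemma finish {b D : ℕ} {Γ : ℤ} (hn : 1 ≤ n) (hb : 1 ≤ b) (hbS : b < S')
    (hOk : Ok k M n x y b D Γ) (hΓ : (n : ℤ) ^ k' ≤ Γ) (hD : D + k' ≤ k)
    (hfin : ∀ u w : List Bool, u.length = w.length → u.length < S' →
      (∀ v : List Bool, v.length ≤ k' → cnt v u = cnt v w) → u = w) : x 0 = y 0 := by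
  have h1 := hfin (pre x b) (pre y b) (by simp) (by simpa using hbS) (fun v hv => by
    have h2 := hOk v.length (by omega) _ (cnt_memZ le_rfl) _ _
      (rep_cnt hn x hv hΓ) (rep_cnt hn y hv hΓ)
    exact_mod_cast h2)
  exact eq_of_pre_eq h1 0 hb

open Classical in
/-- **The exact rounds.** -/
theorem rounds (hn : 1 ≤ n) (hsn : s ≤ n)
    (hdens : ∀ b, S' ≤ b → b ≤ s → ∃ i, 4 * i < b ∧ trc (Trav t (pre x i) (x i) x) 0 b ≤ μ)
    (hh : ∀ κ, ∃ h ∈ PolZ d, IsInd M t n x κ h ∧ IsInd M t n y κ h)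
    (hfin : ∀ u w : List Bool, u.length = w.length → u.length < S' →
      (∀ v : List Bool, v.length ≤ k' → cnt v u = cnt v w) → u = w) :
    ∀ r b D, 1 ≤ b → b ≤ s → b < 4 ^ r →
      Ok k M n x y b D ((n : ℤ) ^ ((2 * μ + 1) * r + k')) →
      D + r * (d + 2 * μ + 1) + k' ≤ k → x 0 = y 0 := by
  have hnr : (1 : ℤ) ≤ n := by exact_mod_cast hn
  intro r
  induction r with
  | zero =>
    intro b D hb _ hb4 _ _
    rw [pow_zero] at hb4
    omega
  | succ r ih =>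
    intro b D hb hbs hb4 hOk hD
    by_cases hbS : b < S'
    · refine finish hn hb hbS hOk ?_ (by omega) hfin
      exact pow_le_pow_right₀ hnr (Nat.le_add_left _ _)
    · obtain ⟨b', hb', hμ⟩ := hdens b (by omega) hbs
      obtain ⟨h, hd, hx, hy⟩ := hh (pre x b')
      have hc0 : (fun _ : List Bool => (1 : ℤ)) ∈ PolZ 0 := const_memZ 0 1
      have hD' : (r + 1) * (d + 2 * μ + 1) = r * (d + 2 * μ + 1) + (d + 2 * μ + 1) := by ring
      have hΓ1 : (1 : ℤ) ≤ (n : ℤ) ^ ((2 * μ + 1) * r + k') := one_le_pow₀ hnr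
      obtain ⟨hyb, hOk'⟩ := step (e := 0) (z1 := b) (z2 := b) (b' := b') (Wa := fun _ => 1)
        (Wb := fun _ => 1) (Wm := 1) (μ := μ)
        (Γ' := (n : ℤ) ^ ((2 * μ + 1) * r + k'))
        (T := (Finset.range b).filter (Trav t (pre x b') (x b') x)) hOk (hbs.trans hsn) hd hx hy
        (fun i => by rw [Finset.mem_filter, Finset.mem_range])
        (by
          refine le_trans (le_of_eq ?_) hμ
          unfold trc
          rw [Finset.range_eq_Ico])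
        (Trav_self t x b') (by omega) le_rfl le_rfl hc0 hc0
        (fun _ _ => ⟨zero_le_one, le_rfl⟩) (fun _ _ => ⟨zero_le_one, le_rfl⟩) zero_le_one
        (fun i _ => by simp) (by simp) hΓ1
        (by
          refine le_of_eq ?_
          rw [one_mul, ← pow_mul]
          ring)
        (by omega)
      rcases Nat.eq_zero_or_pos b' with h0 | h0
      · subst h0
        exact hyb.2
      · exact ih b' _ h0 (by omega) (by rw [pow_succ] at hb4; omega) hOk' (by omega)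

open Classical in
/-- **The root**, if the windows are shorter than the string. -/
theorem root {m B R : ℕ} (hn : 1 ≤ n) (hsn : s < n) (hS's : S' ≤ s) (hs4 : 4 ≤ s)
    (hdens : ∀ b, S' ≤ b → b ≤ s → ∃ i, 4 * i < b ∧ trc (Trav t (pre x i) (x i) x) 0 b ≤ μ)
    (hh : ∀ κ, ∃ h ∈ PolZ d, IsInd M t n x κ h ∧ IsInd M t n y κ h)
    (hfin : ∀ u w : List Bool, u.length = w.length → u.length < S' →
      (∀ v : List Bool, v.length ≤ k' → cnt v u = cnt v w) → u = w)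
    (hk : ∀ z : List Bool, z.length ≤ k → cnt z (pre x n) = cnt z (pre y n))
    (hB : B = n ^ (2 * μ + 1 + ((2 * μ + 1) * R + k')))
    (hm1 : Real.sqrt (2 * n / s) * (Real.log (B + 1) / 2 + 1) ≤ m)
    (hm2 : Real.sqrt (2 * n / (s / 2 : ℕ)) * (Real.log (B + 1) / 2 + 1) ≤ m)
    (hM : B * (5 * n) ^ (2 * m) < 2 ^ M) (hR : n < 4 ^ R)
    (hcost : (d + 2 * m + 2 * μ + 1) + R * (d + 2 * μ + 1) + k' ≤ k) : x 0 = y 0 := by
  have hnr : (1 : ℤ) ≤ n := by exact_mod_cast hn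
  obtain ⟨b', hb', hμ⟩ := hdens s hS's le_rfl
  obtain ⟨h, hd, hx, hy⟩ := hh (pre x b')
  obtain ⟨Wa, Qa, ha1, ha2, ha3, ha4, ha5⟩ := exists_loc (n := n) (u := s) (m := m) (B := B)
    (by omega) hsn hm1
  obtain ⟨Wb, Qb, hb1, hb2, hb3, hb4, hb5⟩ := exists_loc (n := n) (u := s / 2) (m := m) (B := B)
    (by omega) (by omega) hm2
  set Γ' : ℤ := (n : ℤ) ^ ((2 * μ + 1) * R + k') with hΓ'
  have hΓ1 : (1 : ℤ) ≤ Γ' := one_le_pow₀ hnr
  have hBe : (B : ℤ) = n * ((n : ℤ) ^ 2) ^ μ * Γ' := by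
    rw [hB, hΓ']
    push_cast
    rw [pow_add, pow_succ, ← pow_mul]
    ring
  have hOk : Ok k M n x y n 0 ((B : ℤ) * (5 * (n : ℤ)) ^ (2 * m)) :=
    Ok_base hk (by exact_mod_cast hM)
  have hP0 : (0 : ℤ) ≤ ((n : ℤ) ^ 2) ^ μ := by positivity
  obtain ⟨hyb, hOk'⟩ := step (e := 2 * m) (z1 := s / 2) (z2 := s) (b' := b') (Wa := Wa)
    (Wb := Wb) (Wm := (5 * (n : ℤ)) ^ (2 * m)) (μ := μ) (Γ' := Γ')
    (T := (Finset.range s).filter (Trav t (pre x b') (x b') x)) hOk le_rfl hd hx hy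
    (fun i => by rw [Finset.mem_filter, Finset.mem_range])
    (by
      refine le_trans (le_of_eq ?_) hμ
      unfold trc
      rw [Finset.range_eq_Ico])
    (Trav_self t x b') (by omega) (by omega) hsn.le ha1 hb1 ha3 hb3 (by positivity)
    (by
      intro i hi
      refine lt_of_le_of_lt ?_ (ha5 i (by omega))
      have h1 : ∑ j ∈ Finset.Ico s n, Wa j * ((n : ℤ) ^ 2) ^ μ ≤
          ∑ _j ∈ Finset.Ico s n, Qa * ((n : ℤ) ^ 2) ^ μ := by
        refine Finset.sum_le_sum fun j hj => ?_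
        have hj' := Finset.mem_Ico.1 hj
        exact mul_le_mul_of_nonneg_right (ha4 j hj'.1 hj'.2.le) hP0
      refine h1.trans ?_
      rw [Finset.sum_const, Nat.card_Ico, nsmul_eq_mul, hBe]
      have h2 : ((n - s : ℕ) : ℤ) ≤ n := by omega
      have h3 : 0 ≤ Qa * ((n : ℤ) ^ 2) ^ μ := by positivity
      calc ((n - s : ℕ) : ℤ) * (Qa * ((n : ℤ) ^ 2) ^ μ)
          ≤ n * (Qa * ((n : ℤ) ^ 2) ^ μ) := mul_le_mul_of_nonneg_right h2 h3
        _ = n * (Qa * ((n : ℤ) ^ 2) ^ μ) * 1 := by ring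
        _ ≤ n * (Qa * ((n : ℤ) ^ 2) ^ μ) * Γ' :=
            mul_le_mul_of_nonneg_left hΓ1 (by positivity)
        _ = n * ((n : ℤ) ^ 2) ^ μ * Γ' * Qa := by ring)
    (by
      refine lt_of_le_of_lt ?_ (hb5 b' (by omega))
      have h1 : ∑ j ∈ Finset.Ico (s / 2) n, Wb j * ((n : ℤ) ^ 2) ^ μ * Γ' ≤
          ∑ _j ∈ Finset.Ico (s / 2) n, Qb * ((n : ℤ) ^ 2) ^ μ * Γ' := by
        refine Finset.sum_le_sum fun j hj => ?_
        have hj' := Finset.mem_Ico.1 hj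
        exact mul_le_mul_of_nonneg_right
          (mul_le_mul_of_nonneg_right (hb4 j hj'.1 hj'.2.le) hP0) (by linarith)
      refine h1.trans ?_
      rw [Finset.sum_const, Nat.card_Ico, nsmul_eq_mul, hBe]
      have h2 : ((n - s / 2 : ℕ) : ℤ) ≤ n := by omega
      have h3 : 0 ≤ Qb * ((n : ℤ) ^ 2) ^ μ * Γ' := by positivity
      calc ((n - s / 2 : ℕ) : ℤ) * (Qb * ((n : ℤ) ^ 2) ^ μ * Γ')
          ≤ n * (Qb * ((n : ℤ) ^ 2) ^ μ * Γ') := mul_le_mul_of_nonneg_right h2 h3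
        _ = n * ((n : ℤ) ^ 2) ^ μ * Γ' * Qb := by ring)
    hΓ1
    (by
      rw [hBe]
      refine le_of_eq ?_
      ring)
    (by omega)
  rcases Nat.eq_zero_or_pos b' with h0 | h0
  · subst h0
    exact hyb.2
  · refine rounds hn hsn.le hdens hh hfin R b' _ h0 (by omega) (by omega) hOk' (by omega)

end

end DeckL
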