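import Pool.Agent.DeckG.Fin
import Pool.Agent.DeckL.Dens
import Pool.Agent.DeckL.Rounds

/-!
# The choice of the parameters
-/

namespace DeckL

open DeckA DeckG

/-- The known `√m log m` bound. -/
lemma fin_exact {k' S : ℕ} (hS : 1 ≤ S) (hk : 50 * Real.sqrt S * Real.log S ≤ k')
    {u w : List Bool} (hl : u.length = w.length) (hu : u.length < S)
    (h : ∀ v : List Bool, v.length ≤ k' → cnt v u = cnt v w) : u = w :=
  fin_sqrt (M := S ^ k') hS Nat.lt_two_pow_self hk hl hu fun v hv => by rw [h v hv]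

lemma logn_ge {n : ℕ} (hn : 2 ≤ n) : (0.69 : ℝ) ≤ Real.log n := by
  have hl2 := Real.log_two_gt_d9
  have hL := log_ge hn
  linarith

lemma w_ge {L δ : ℝ} (hL : 0.69 ≤ L) (hδ : 0 < δ) (hδ1 : δ ≤ 1) : L ≤ L / δ :=
  le_div_self (by linarith) hδ hδ1

lemma par_sigma {n : ℕ} {θ : ℝ} (hn : 2 ≤ n) (hθ : 0 < θ) (hθ1 : θ ≤ 1) :
    ∃ σ : ℕ, 1 ≤ σ ∧ 8 * Real.log n < θ * Real.log 2 * σ ∧
      (σ : ℝ) ≤ 13.1 * (Real.log n / θ) := by
  have hl2 := Real.log_two_gt_d9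
  have hL := logn_ge hn
  set L := Real.log n with hLdef
  have hw := w_ge hL hθ hθ1
  refine ⟨⌊8 / Real.log 2 * (L / θ)⌋₊ + 1, by omega, ?_, ?_⟩
  · have h1 := Nat.lt_floor_add_one (8 / Real.log 2 * (L / θ))
    have h2 : θ * Real.log 2 * (8 / Real.log 2 * (L / θ)) = 8 * L := by
      have : Real.log 2 ≠ 0 := by linarith
      field_simp
    have h3 : θ * Real.log 2 * (8 / Real.log 2 * (L / θ)) <
        θ * Real.log 2 * ((⌊8 / Real.log 2 * (L / θ)⌋₊ : ℝ) + 1) :=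
      mul_lt_mul_of_pos_left h1 (by positivity)
    push_cast
    linarith
  · have h1 := Nat.floor_le (show (0 : ℝ) ≤ 8 / Real.log 2 * (L / θ) by positivity)
    have h2 : 8 / Real.log 2 ≤ 11.6 := by
      rw [div_le_iff₀ (by linarith)]; linarith
    have h3 : 8 / Real.log 2 * (L / θ) ≤ 11.6 * (L / θ) :=
      mul_le_mul_of_nonneg_right h2 (by linarith)
    push_cast
    linarith

lemma par_R {n : ℕ} (hn : 2 ≤ n) : n < 4 ^ (Nat.log 4 n + 1) ∧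
    ((Nat.log 4 n + 1 : ℕ) : ℝ) ≤ 2.2 * Real.log n := by
  refine ⟨Nat.lt_pow_succ_log_self (by norm_num) n, ?_⟩
  have hL := logn_ge hn
  have h1 : 4 ^ Nat.log 4 n ≤ n := Nat.pow_log_le_self 4 (by omega)
  have h2 : ((4 ^ Nat.log 4 n : ℕ) : ℝ) ≤ n := by exact_mod_cast h1
  push_cast at h2
  have h3 := Real.log_le_log (by positivity) h2
  rw [Real.log_pow] at h3
  have h4 : Real.log 4 = 2 * Real.log 2 := by
    rw [show (4 : ℝ) = 2 ^ 2 by norm_num, Real.log_pow]; norm_num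
  have hl2 := Real.log_two_gt_d9
  have h5 : (Nat.log 4 n : ℝ) * 1.38 ≤ Real.log n := by
    refine le_trans (mul_le_mul_of_nonneg_left ?_ (Nat.cast_nonneg _)) h3
    linarith
  push_cast
  linarith

lemma par_log5 {n : ℕ} (hn : 2 ≤ n) :
    ((Nat.log 2 (5 * n) + 1 : ℕ) : ℝ) ≤ 6.4 * Real.log n := by
  have hL := logn_ge hn
  have hn2 : (2 : ℝ) ≤ n := by exact_mod_cast hn
  have h1 : Real.log ((5 * n : ℕ) : ℝ) ≤ Real.log 5 + Real.log n := by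
    push_cast
    rw [Real.log_mul (by norm_num) (by linarith)]
  have h2 : Real.log 5 ≤ 1.62 := by
    have h3 : Real.log 5 ≤ 7 / 3 * Real.log 2 := by
      have h4 : Real.log ((5 : ℝ) ^ 3) ≤ Real.log ((2 : ℝ) ^ 7) :=
        Real.log_le_log (by norm_num) (by norm_num)
      rw [Real.log_pow, Real.log_pow] at h4
      norm_num at h4
      linarith
    have := Real.log_two_lt_d9
    linarith
  have h3 := natlog_le' (m := 5 * n) (by omega) h1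
  push_cast
  linarith

lemma par_log1 {n : ℕ} (hn : 2 ≤ n) : ((Nat.log 2 n + 1 : ℕ) : ℝ) ≤ 2.9 * Real.log n := by
  have hL := logn_ge hn
  have h3 := natlog_le' (m := n) (by omega) (le_refl (Real.log n))
  push_cast
  linarith

lemma par_log2 {n : ℕ} (hn : 2 ≤ n) : (Nat.log 2 (2 * n + 2) : ℝ) ≤ 5 * Real.log n := by
  obtain ⟨_, _, _, _, _, _, _, _, h⟩ := params hn one_pos le_rfl
  exact h

/-- The size of `k'`. -/
lemma par_k' {S' k' : ℕ} {L z : ℝ} (hL : 0.69 ≤ L) (hz : 0.83 ≤ z) (hS' : 1 ≤ S')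
    (hS'b : (S' : ℝ) ≤ 17.5 * z ^ 2) (hlog : Real.log S' ≤ L)
    (hk' : k' = ⌈50 * Real.sqrt S' * Real.log S'⌉₊) : (k' : ℝ) ≤ 212 * (z * L) := by
  have hL0 : 0 ≤ L := by linarith
  have hz0 : 0 ≤ z := by linarith
  have hlog0 : 0 ≤ Real.log S' := Real.log_nonneg (by exact_mod_cast hS')
  have hsq : Real.sqrt S' ≤ 4.19 * z := by
    rw [Real.sqrt_le_left (by positivity), mul_pow]
    have h1 : 0 ≤ z ^ 2 := by positivity
    norm_num at hS'b ⊢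
    linarith
  have h1 : Real.sqrt S' * Real.log S' ≤ 4.19 * z * L :=
    mul_le_mul hsq hlog hlog0 (by positivity)
  have h2 := (Nat.ceil_lt_add_one (a := 50 * Real.sqrt S' * Real.log S') (by positivity)).le
  rw [← hk'] at h2
  have h3 : (1 : ℝ) ≤ 1.75 * (z * L) := by
    have b1 : 0.83 * 0.69 ≤ z * L := mul_le_mul hz hL (by norm_num) (by linarith)
    norm_num at b1 ⊢; linarith
  linarith

/-- The size of the exponent of the bounds. -/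
lemma par_Lam {M R k' : ℕ} {L z : ℝ} (hL : 0.69 ≤ L) (hz : 0.83 ≤ z)
    (hR : (R : ℝ) ≤ 2.2 * L) (hk' : (k' : ℝ) ≤ 212 * (z * L)) :
    ((2 * (2 * M + 1) + 2 + ((2 * (2 * M + 1) + 1) * R + k') : ℕ) : ℝ) ≤
      228 * ((M + z) * L) := by
  have hM : (0 : ℝ) ≤ M := Nat.cast_nonneg M
  have h1 : (2 * (2 * (M : ℝ) + 1) + 1) * R ≤ (4 * M + 3) * (2.2 * L) := by
    have e : 2 * (2 * (M : ℝ) + 1) + 1 = 4 * M + 3 := by ring
    rw [e]
    exact mul_le_mul_of_nonneg_left hR (by linarith)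
  have h2 : 0.83 * L ≤ z * L := mul_le_mul_of_nonneg_right hz (by linarith)
  have h3 : 0.69 * (M : ℝ) ≤ M * L := by
    have := mul_le_mul_of_nonneg_left hL hM
    linarith
  push_cast
  linarith

/-- The size of `m`. -/
lemma par_m {L Λ ρ : ℝ} {m : ℕ} (hL : 0.69 ≤ L) (hΛ : 4 ≤ Λ) (hρ : 1 ≤ ρ)
    (hm : m = ⌈2.5 * ρ * (Λ * L / 2 + 1)⌉₊) : (m : ℝ) ≤ 2.53 * (ρ * Λ * L) := by
  have h1 := (Nat.ceil_lt_add_one (a := 2.5 * ρ * (Λ * L / 2 + 1)) (by positivity)).le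
  rw [← hm] at h1
  have h2 : 4 * 0.69 ≤ Λ * L := mul_le_mul hΛ hL (by norm_num) (by linarith)
  have h3 : (1 : ℝ) ≤ 0.363 * (Λ * L) := by linarith
  have h4 := mul_le_mul_of_nonneg_left h3 (show 0 ≤ ρ by linarith)
  have h5 : 2.5 * ρ * (Λ * L / 2 + 1) = 1.25 * (ρ * Λ * L) + 2.5 * (ρ * 1) := by ring
  have h6 : ρ * (0.363 * (Λ * L)) = 0.363 * (ρ * Λ * L) := by ring
  linarith

/-- The size of `M`. -/
lemma par_M {L Λ ρ m a b : ℝ} (hL : 0.69 ≤ L) (hΛ : 4 ≤ Λ) (hρ : 1 ≤ ρ)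
    (hm : m ≤ 2.53 * (ρ * Λ * L)) (ha : a ≤ 2.9 * L) (hb0 : 0 ≤ b)
    (hb : b ≤ 6.4 * L) : 2 * (Λ * a + 2 * m * b + 1) ≤ 75 * (ρ * Λ * L ^ 2) := by
  have hΛL : 4 * 0.69 ≤ Λ * L := mul_le_mul hΛ hL (by norm_num) (by linarith)
  have h1 : Λ * a ≤ Λ * (2.9 * L) := mul_le_mul_of_nonneg_left ha (by linarith)
  have h2 : m * b ≤ 2.53 * (ρ * Λ * L) * (6.4 * L) := mul_le_mul hm hb hb0 (by positivity)
  have h3 : Λ * L ≤ 1.45 * (ρ * Λ * L ^ 2) := by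
    have h4 : 1 * 0.69 ≤ ρ * L := mul_le_mul hρ hL (by norm_num) (by linarith)
    have h5 := mul_le_mul_of_nonneg_left h4 (show 0 ≤ Λ * L by linarith)
    have e : Λ * L * (ρ * L) = ρ * Λ * L ^ 2 := by ring
    linarith
  have e1 : 2.53 * (ρ * Λ * L) * (6.4 * L) = 16.192 * (ρ * Λ * L ^ 2) := by ring
  linarith

/-- The size of the total cost. -/
lemma par_cost {L w ρ Y lr Λ m M1 tl R1 : ℝ} (hL : 0.69 ≤ L) (hw : L ≤ w) (hρ : 1 ≤ ρ)
    (hY : 0 ≤ Y) (hl : 1 ≤ lr) (hΛ0 : 0 ≤ Λ) (hΛ : Λ ≤ 228 * (Y * L))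
    (hm : m ≤ 2.53 * (ρ * Λ * L)) (hM0 : 0 ≤ M1)
    (hM : M1 ≤ 75 * (ρ * Λ * L ^ 2)) (htl0 : 0 ≤ tl) (htl : tl ≤ 13.1 * w * lr * (5 * L))
    (hR : R1 ≤ 3.65 * L) :
    R1 * (M1 * tl) + 2 * m + Λ ≤ 5 * 10 ^ 6 * (lr * ρ * Y * (w * L ^ 5)) := by
  have hL0 : 0 ≤ L := by linarith
  have hw0 : 0 ≤ w := by linarith
  have h1 : M1 * tl ≤ 75 * (ρ * Λ * L ^ 2) * (13.1 * w * lr * (5 * L)) :=
    mul_le_mul hM htl htl0 (by positivity)
  have h2 : R1 * (M1 * tl) ≤ 3.65 * L * (75 * (ρ * Λ * L ^ 2) * (13.1 * w * lr * (5 * L))) :=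
    mul_le_mul hR h1 (by positivity) (by linarith)
  have e2 : 3.65 * L * (75 * (ρ * Λ * L ^ 2) * (13.1 * w * lr * (5 * L))) =
      17930.625 * (ρ * Λ * lr * w * L ^ 4) := by ring
  -- small terms
  have hL3 : (0.32 : ℝ) ≤ L ^ 3 := by
    have := pow_le_pow_left₀ (by norm_num) hL 3
    norm_num at this ⊢; linarith
  have hwL3 : (0.69 * 0.32 : ℝ) ≤ w * L ^ 3 :=
    mul_le_mul (hL.trans hw) hL3 (by norm_num) (by linarith)
  have hlw : 1 * (0.69 * 0.32 : ℝ) ≤ lr * (w * L ^ 3) :=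
    mul_le_mul hl hwL3 (by norm_num) (by linarith)
  have h3 : ρ * Λ * L ≤ 5 * (ρ * Λ * lr * w * L ^ 4) := by
    have h4 : (1 : ℝ) ≤ 5 * (lr * (w * L ^ 3)) := by linarith
    have h5 := mul_le_mul_of_nonneg_left h4 (show 0 ≤ ρ * Λ * L by positivity)
    have e : ρ * Λ * L * (5 * (lr * (w * L ^ 3))) = 5 * (ρ * Λ * lr * w * L ^ 4) := by ring
    linarith
  have h4 : Λ ≤ 1.45 * (ρ * Λ * L) := by
    have h5 : 1 * 0.69 ≤ ρ * L := mul_le_mul hρ hL (by norm_num) (by linarith)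
    have h6 := mul_le_mul_of_nonneg_left h5 hΛ0
    have e : Λ * (ρ * L) = ρ * Λ * L := by ring
    linarith
  have h5 : R1 * (M1 * tl) + 2 * m + Λ ≤ 18000 * (ρ * Λ * lr * w * L ^ 4) := by linarith
  refine h5.trans ?_
  have h6 : ρ * Λ * lr * w * L ^ 4 ≤ ρ * (228 * (Y * L)) * lr * w * L ^ 4 := by
    have e1 : ρ * Λ * lr * w * L ^ 4 = Λ * (ρ * lr * w * L ^ 4) := by ring
    have e2 : ρ * (228 * (Y * L)) * lr * w * L ^ 4 =
        228 * (Y * L) * (ρ * lr * w * L ^ 4) := by ring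
    rw [e1, e2]
    exact mul_le_mul_of_nonneg_right hΛ (by positivity)
  have e6 : ρ * (228 * (Y * L)) * lr * w * L ^ 4 =
      228 * (lr * ρ * Y * (w * L ^ 5)) := by ring
  have h7 : 0 ≤ lr * ρ * Y * (w * L ^ 5) := by positivity
  linarith

end DeckL
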